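import Pool.Agent.Lib.MP_6bd4d3_al.Homology
import Pool.Agent.Lib.MP_6bd4d3_al.Step

/-!
The second homology of the prosolvable completion has at least continuum many elements.
-/

open Finsupp groupHomology
open scoped commutatorElement
open Classical

namespace Pool.Agent.Lib.MP_6bd4d3_al

/-- The classes in `(ker χ)ᵃᵇ` of the second entries of genus four surface relations lie in the
image of a map defined on `H₂(G, ℤ)`. -/
theorem classes_subset_range {G : Type} [Group G] (χ : G →* Multiplicative ℤ) (a : G)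
    (ha : χ a = Multiplicative.ofAdd 1) :
    ∃ f : groupHomology (Rep.trivial ℤ G ℤ) 2 → Abelianization χ.ker,
    {v : Abelianization χ.ker | ∃ (p₁ : G) (q₁ : χ.ker) (p₂ q₂ p₃ q₃ p₄ q₄ : G),
      χ p₁ = Multiplicative.ofAdd 1 ∧ χ p₂ = 1 ∧ χ q₂ = 1 ∧ χ p₃ = 1 ∧ χ q₃ = 1 ∧
      χ p₄ = 1 ∧ χ q₄ = 1 ∧
      ⁅p₁, (q₁ : G)⁆ * ⁅p₂, q₂⁆ * ⁅p₃, q₃⁆ * ⁅p₄, q₄⁆ = 1 ∧ v = Abelianization.of q₁} ⊆
      Set.range f := by
  classical
  obtain ⟨Θ, hΘ, hΘ0, hΘ1⟩ := exists_cocycle χ a ha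
  let A := Rep.trivial ℤ G ℤ
  let Λ : (G × G →₀ A) →ₗ[ℤ] Additive (Abelianization χ.ker) := Finsupp.linearCombination ℤ Θ
  have Λs : ∀ g : G × G, Λ (single g (1 : ℤ)) = Θ g := fun g => by
    simp only [Λ]
    exact (Finsupp.linearCombination_single ℤ (1 : ℤ) g).trans (one_smul _ _)
  have hΛ : ∀ x ∈ boundaries₂ A, Λ x = 0 := by
    rintro _ ⟨y, rfl⟩
    induction y using Finsupp.induction_linear with
    | zero => simp
    | add f g hf hg => rw [map_add, map_add, hf, hg, add_zero]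
    | single g n =>
      have e : (single g n : G × G × G →₀ A) = (n : ℤ) • single g (1 : ℤ) := by
        ext; simp [Finsupp.single_apply]
      rw [e, map_smul, map_smul]
      have : Λ ((d₃₂ A).hom (single g (1 : ℤ))) = 0 := by
        erw [d₃₂_single]
        rw [map_sub, map_add, map_sub]
        erw [Λs, Λs, Λs, Λs]
        exact hΘ _ _ _
      rw [this, smul_zero]
  have hfac : ∀ x : groupHomology A 2, ∃ v, ∀ z : cycles₂ A, H2π A z = x → Λ z.1 = v := by
    intro x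
    induction x using H2_induction_on with
    | h z₀ =>
      refine ⟨Λ z₀.1, fun z hz => ?_⟩
      have := hΛ _ ((H2π_eq_iff z z₀).1 hz)
      rwa [map_sub, sub_eq_zero] at this
  choose F hF using hfac
  refine ⟨fun x => Additive.toMul (F x), ?_⟩
  rintro v ⟨p₁, q₁, p₂, q₂, p₃, q₃, p₄, q₄, h1, h2, h3, h4, h5, h6, h7, hr, rfl⟩
  let s : G → G → (G × G →₀ A) := fun g h => single (g, h) (1 : ℤ)
  let t : G → (G →₀ A) := fun g => single g (1 : ℤ)
  have ds : ∀ g h, (d₂₁ A).hom (s g h) = t h - t (g * h) + t g := fun g h => by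
    erw [d₂₁_single]; rfl
  let C : G → G → (G × G →₀ A) := fun p q => s p q - s q p - s ⁅p, q⁆ (q * p)
  have dC : ∀ p q, (d₂₁ A).hom (C p q) = -t ⁅p, q⁆ := by
    intro p q
    simp only [C, map_sub, ds]
    rw [show ⁅p, q⁆ * (q * p) = p * q by rw [commutatorElement_def]; group]
    abel
  let z : G × G →₀ A := C p₁ q₁ + C p₂ q₂ + C p₃ q₃ + C p₄ q₄ + s ⁅p₁, (q₁ : G)⁆ ⁅p₂, q₂⁆
    + s (⁅p₁, (q₁ : G)⁆ * ⁅p₂, q₂⁆) ⁅p₃, q₃⁆
    + s (⁅p₁, (q₁ : G)⁆ * ⁅p₂, q₂⁆ * ⁅p₃, q₃⁆) ⁅p₄, q₄⁆ + s 1 1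
  have hz : z ∈ cycles₂ A := by
    change (d₂₁ A).hom z = 0
    simp only [z, map_add, dC, ds, hr, mul_one]
    abel
  have χc : ∀ p q : G, χ ⁅p, q⁆ = 1 := fun p q => by
    rw [map_commutatorElement, commutatorElement_eq_one_iff_mul_comm, mul_comm]
  have hq₁ : χ q₁ = 1 := q₁.2
  have Λs' : ∀ g h, Λ (s g h) = Θ (g, h) := fun g h => Λs (g, h)
  have hv : Λ z = Additive.ofMul (Abelianization.of q₁) := by
    simp only [z, C, map_add, map_sub, Λs']
    rw [hΘ1 p₁ q₁ h1, hΘ0 _ _ hq₁, hΘ0 _ _ h2, hΘ0 _ _ h3, hΘ0 _ _ h4, hΘ0 _ _ h5,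
      hΘ0 _ _ h6, hΘ0 _ _ h7, hΘ0 _ _ (χc _ _),
      hΘ0 _ _ (χc _ _), hΘ0 _ _ (χc _ _), hΘ0 _ _ (χc _ _), hΘ0 _ _ (χc _ _),
      hΘ0 _ _ (map_one χ), hΘ0 _ _ (by rw [map_mul, χc, χc, mul_one]),
      hΘ0 _ _ (by rw [map_mul, map_mul, χc, χc, χc, mul_one, mul_one])]
    simp
  refine ⟨H2π A ⟨z, hz⟩, ?_⟩
  simp only
  rw [← hF _ ⟨z, hz⟩ rfl, hv]
  rfl

/-- The case of the free group on a type with two elements. -/
theorem free_case :
    ∀ (α : Type), Nontrivial α →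
      ∀ H : Subgroup ((n : ℕ) → FreeGroup α ⧸ derivedSeries (FreeGroup α) n),
        (H : Set ((n : ℕ) → FreeGroup α ⧸ derivedSeries (FreeGroup α) n)) =
          {x | ∀ n : ℕ, ∃ g : FreeGroup α,
              x (n + 1) = (g : FreeGroup α ⧸ derivedSeries (FreeGroup α) (n + 1)) ∧
              x n = (g : FreeGroup α ⧸ derivedSeries (FreeGroup α) n)} →
        Cardinal.continuum ≤ Cardinal.mk (groupHomology (Rep.trivial ℤ (↥H) ℤ) 2) := by
  intro α hα H hH
  obtain ⟨a, b, hab⟩ := exists_pair_ne α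
  obtain ⟨n, θ, hn, hgood, hcong, hfar⟩ := exists_family hab
  have hmem : ∀ z : (k : ℕ) → FreeGroup α ⧸ derivedSeries (FreeGroup α) k, z ∈ H ↔
      ∀ k : ℕ, ∃ g : FreeGroup α,
        z (k + 1) = (g : FreeGroup α ⧸ derivedSeries (FreeGroup α) (k + 1)) ∧
        z k = (g : FreeGroup α ⧸ derivedSeries (FreeGroup α) k) := fun z => by
    rw [← SetLike.mem_coe, hH]; rfl
  have heq : ∀ (k : ℕ) (g g' : FreeGroup α),
      (g : FreeGroup α ⧸ derivedSeries (FreeGroup α) k) = g' ↔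
        g * g'⁻¹ ∈ derivedSeries (FreeGroup α) k := fun k g g' => by
    rw [← QuotientGroup.eq_one_iff, QuotientGroup.mk_mul, QuotientGroup.mk_inv, mul_inv_eq_one]
  have hdown : ∀ z ∈ H, ∀ j k, j ≤ k → ∀ g : FreeGroup α,
      z k = (g : FreeGroup α ⧸ derivedSeries (FreeGroup α) k) →
      z j = (g : FreeGroup α ⧸ derivedSeries (FreeGroup α) j) := by
    intro z hz j k hjk
    induction k, hjk using Nat.le_induction with
    | base => exact fun g h => h
    | succ k hk ih =>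
      intro g hg
      obtain ⟨g', h1, h2⟩ := (hmem z).1 hz k
      apply ih
      rw [h2, heq]
      exact derivedSeries_antitone _ (Nat.le_succ k) ((heq _ _ _).1 (h1.symm.trans hg))
  let pr : ∀ k, H →* FreeGroup α ⧸ derivedSeries (FreeGroup α) k := fun k =>
    (Pi.evalMonoidHom (fun k => FreeGroup α ⧸ derivedSeries (FreeGroup α) k) k).comp H.subtype
  let χ : H →* Multiplicative ℤ :=
    (QuotientGroup.lift (derivedSeries (FreeGroup α) 1) (chi a)
      (fun x hx => chi_derived a hx)).comp (pr 1)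
  let Ψ₀ : (ℕ → Bool) → Phi →* ((k : ℕ) → FreeGroup α ⧸ derivedSeries (FreeGroup α) k) :=
    fun ε => MonoidHom.pi fun k =>
      (QuotientGroup.mk' (derivedSeries (FreeGroup α) k)).comp ((psi a b).comp (θ ε k))
  have hΨ₀ : ∀ ε x, Ψ₀ ε x ∈ H := by
    intro ε x
    rw [hmem]
    intro k
    refine ⟨psi a b (θ ε (k + 1) x), rfl, ?_⟩
    symm
    exact (heq _ _ _).2 (derivedSeries_antitone _ (hn k).le (hcong ε k (k + 1) (Nat.le_succ k) x))
  let Ψ : (ℕ → Bool) → Phi →* H := fun ε => (Ψ₀ ε).codRestrict H (hΨ₀ ε)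
  have hχΨ : ∀ ε x, χ (Ψ ε x) = chi8 x := by
    intro ε x
    obtain ⟨m, hm⟩ := hgood ε 1
    change ((chi a).comp (psi a b)) (θ ε 1 x) = _
    rw [chi_psi hab]
    exact DFunLike.congr_fun hm.2.1 x
  have hrel : ∀ ε, Ψ ε (rel FreeGroup.of) = 1 := by
    intro ε
    apply Subtype.ext
    funext k
    obtain ⟨m, hm⟩ := hgood ε k
    change QuotientGroup.mk' _ (psi a b (θ ε k (rel FreeGroup.of))) = 1
    rw [hm.1, psi_rel, map_one]
  obtain ⟨f, hf⟩ := classes_subset_range χ (Ψ (fun _ => true) (FreeGroup.of 0))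
    (by rw [hχΨ]; simp [chi8])
  have hker : ∀ ε, Ψ ε (FreeGroup.of 1) ∈ χ.ker := fun ε => by
    rw [MonoidHom.mem_ker, hχΨ]; simp [chi8]
  let cls : (ℕ → Bool) → Abelianization χ.ker := fun δ =>
    Abelianization.of ⟨_, hker fun k => δ (Nat.unpair k).1⟩
  have hinj : Function.Injective cls := by
    have key : ∀ δ δ' i, δ i = true → δ' i = false → cls δ ≠ cls δ' := by
      intro δ δ' i h1 h2 h
      let ε : ℕ → Bool := fun k => δ (Nat.unpair k).1
      let ε' : ℕ → Bool := fun k => δ' (Nat.unpair k).1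
      have h3 : (⟨_, hker ε⟩ : χ.ker) * (⟨_, hker ε'⟩ : χ.ker)⁻¹ ∈ commutator χ.ker := by
        rw [← Abelianization.ker_of, MonoidHom.mem_ker, map_mul, map_inv, mul_inv_eq_one]
        exact h
      obtain ⟨m, hm⟩ := CL.of_mem_commutator (K := ⊤) h3
      let k := Nat.pair i m
      let π := QuotientGroup.mk' (derivedSeries (FreeGroup α) (n (k + 1)))
      have h4 := (hm.map (K' := (chi a).ker.map π) ((pr (n (k + 1))).comp χ.ker.subtype)
        (fun z _ => by
          obtain ⟨g, hg⟩ := QuotientGroup.mk_surjective (pr (n (k + 1)) z)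
          refine ⟨g, ?_, hg⟩
          have h5 := hdown z.1.1 z.1.2 1 (n (k + 1)) (by have := hn (k + 1); omega) g hg.symm
          have h6 : χ z = 1 := z.2
          change QuotientGroup.lift (derivedSeries (FreeGroup α) 1) (chi a)
            (fun x hx => chi_derived a hx) (z.1.1 1) = 1 at h6
          rw [h5] at h6
          exact h6)).mono_len (Nat.right_le_pair i m)
      obtain ⟨x, hx, hx'⟩ := CL.lift (K := (chi a).ker) π (fun y hy => hy) h4
      refine hfar ε ε' k (by simp [ε, k, h1]) (by simp [ε', k, h2]) x hx ?_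
      rw [← heq]
      change π _ = π x
      rw [hx', map_mul, map_inv, map_mul, map_inv]
      have h7 : ∀ e : ℕ → Bool, π (psi a b (θ e (k + 1) (FreeGroup.of 1))) =
          π (psi a b (θ e (n (k + 1)) (FreeGroup.of 1))) := fun e =>
        ((heq _ _ _).2 (hcong e (k + 1) (n (k + 1)) (hn _).le _)).symm
      rw [h7, h7]
      rfl
    intro δ δ' h
    funext i
    cases h1 : δ i <;> cases h2 : δ' i
    · rfl
    · exact absurd h.symm (key δ' δ i h2 h1)
    · exact absurd h (key δ δ' i h1 h2)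
    · rfl
  have hall : ∀ δ, cls δ ∈ Set.range f := by
    intro δ
    apply hf
    let ε : ℕ → Bool := fun k => δ (Nat.unpair k).1
    have hr := hrel ε
    rw [Pool.Agent.Lib.MP_6bd4d3_al.map_rel] at hr
    refine ⟨Ψ ε (FreeGroup.of 0), ⟨_, hker ε⟩, Ψ ε (FreeGroup.of 2), Ψ ε (FreeGroup.of 3),
      Ψ ε (FreeGroup.of 4), Ψ ε (FreeGroup.of 5), Ψ ε (FreeGroup.of 6), Ψ ε (FreeGroup.of 7),
      ?_, ?_, ?_, ?_, ?_, ?_, ?_, hr, rfl⟩ <;> (rw [hχΨ]; simp [chi8])
  choose g hg using hall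
  have hg' : Function.Injective g := fun δ δ' h => hinj (by rw [← hg, ← hg, h])
  have := Cardinal.mk_le_of_injective hg'
  simpa using this

end Pool.Agent.Lib.MP_6bd4d3_al
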