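import Mathlib

/-!
Elements deep in the derived series of a free group that are far from products of few
commutators, even modulo a later term of the derived series.
-/

open scoped commutatorElement

namespace Pool.Agent.Lib.MP_6bd4d3_al

/-- `CL K m x`: `x` is a product of at most `m` commutators of elements of `K`. -/
inductive CL {G : Type} [Group G] (K : Subgroup G) : ℕ → G → Prop
  | one (m : ℕ) : CL K m 1
  | cons {m : ℕ} {x : G} (p q : G) (hp : p ∈ K) (hq : q ∈ K) (hx : CL K m x) :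
      CL K (m + 1) (⁅p, q⁆ * x)

section CL

variable {G : Type} [Group G] {K : Subgroup G}

lemma CL.mono_len {m m' : ℕ} {x : G} (h : CL K m x) (hm : m ≤ m') : CL K m' x := by
  induction h generalizing m' with
  | one m => exact CL.one _
  | cons p q hp hq hx ih =>
    obtain ⟨j, rfl⟩ : ∃ j, m' = j + 1 := ⟨m' - 1, by omega⟩
    exact CL.cons p q hp hq (ih (by omega))

lemma CL.mul {m m' : ℕ} {x y : G} (hx : CL K m x) (hy : CL K m' y) : CL K (m + m') (x * y) := by
  induction hx with
  | one m => rw [one_mul]; exact hy.mono_len (by omega)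
  | cons p q hp hq hx ih =>
    rw [mul_assoc, Nat.add_right_comm]
    exact CL.cons p q hp hq ih

lemma CL.single {p q : G} (hp : p ∈ K) (hq : q ∈ K) : CL K 1 ⁅p, q⁆ := by
  simpa using CL.cons p q hp hq (CL.one 0)

lemma CL.inv {m : ℕ} {x : G} (hx : CL K m x) : CL K m x⁻¹ := by
  induction hx with
  | one m => rw [inv_one]; exact CL.one _
  | cons p q hp hq hx ih =>
    rw [mul_inv_rev, commutatorElement_inv]
    exact ih.mul (CL.single hq hp)

lemma CL.mem {m : ℕ} {x : G} (hx : CL K m x) : x ∈ K := by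
  induction hx with
  | one m => exact K.one_mem
  | cons p q hp hq hx ih =>
    rw [commutatorElement_def]
    exact K.mul_mem (K.mul_mem (K.mul_mem (K.mul_mem hp hq) (K.inv_mem hp)) (K.inv_mem hq)) ih

lemma CL.map {Q : Type} [Group Q] {K' : Subgroup Q} (f : G →* Q) (hf : ∀ x ∈ K, f x ∈ K')
    {m : ℕ} {x : G} (hx : CL K m x) : CL K' m (f x) := by
  induction hx with
  | one m => rw [map_one]; exact CL.one _
  | cons p q hp hq hx ih =>
    rw [map_mul, map_commutatorElement]
    exact CL.cons _ _ (hf p hp) (hf q hq) ih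

lemma CL.lift {Q : Type} [Group Q] {K' : Subgroup Q} (f : G →* Q)
    (hf : ∀ y ∈ K', ∃ x ∈ K, f x = y) {m : ℕ} {y : Q} (hy : CL K' m y) :
    ∃ x, CL K m x ∧ f x = y := by
  induction hy with
  | one m => exact ⟨1, CL.one _, map_one f⟩
  | cons p q hp hq hx ih =>
    obtain ⟨p', hp', rfl⟩ := hf p hp
    obtain ⟨q', hq', rfl⟩ := hf q hq
    obtain ⟨x', hx', rfl⟩ := ih
    exact ⟨⁅p', q'⁆ * x', CL.cons _ _ hp' hq' hx', by rw [map_mul, map_commutatorElement]⟩

lemma CL.map_on {Q : Type} [Group Q] (f : G → Q) (hf : ∀ x ∈ K, ∀ y ∈ K, f (x * y) = f x * f y)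
    {m : ℕ} {x : G} (hx : CL K m x) : CL ⊤ m (f x) := by
  let f' : K →* Q := MonoidHom.mk' (fun x => f x) (fun x y => hf x x.2 y y.2)
  obtain ⟨x', hx', rfl⟩ := CL.lift (K := ⊤) K.subtype (fun y hy => ⟨⟨y, hy⟩, trivial, rfl⟩) hx
  exact hx'.map f' (fun _ _ => Subgroup.mem_top _)

lemma CL.of_mem_commutator {x : G} (hx : x ∈ ⁅K, K⁆) : ∃ m, CL K m x := by
  rw [Subgroup.commutator_def] at hx
  induction hx using Subgroup.closure_induction with
  | mem x hx =>
    obtain ⟨p, hp, q, hq, rfl⟩ := hx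
    exact ⟨1, CL.single hp hq⟩
  | one => exact ⟨0, CL.one 0⟩
  | mul x y _ _ hx hy =>
    obtain ⟨m, hm⟩ := hx
    obtain ⟨m', hm'⟩ := hy
    exact ⟨_, hm.mul hm'⟩
  | inv x _ hx =>
    obtain ⟨m, hm⟩ := hx
    exact ⟨_, hm.inv⟩

lemma CL.exists_finset {m : ℕ} {x : G} (hx : CL K m x) :
    ∃ s : Finset G, s.card ≤ 2 * m ∧ ∀ K' : Subgroup G, (∀ g ∈ s, g ∈ K') → CL K' m x := by
  classical
  induction hx with
  | one m => exact ⟨∅, by simp, fun K' _ => CL.one _⟩
  | cons p q hp hq hx ih =>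
    obtain ⟨s, hs, hs'⟩ := ih
    refine ⟨insert p (insert q s), ?_, fun K' hK' => ?_⟩
    · have h1 := Finset.card_insert_le p (insert q s)
      have h2 := Finset.card_insert_le q s
      omega
    · exact CL.cons p q (hK' p (by simp)) (hK' q (by simp))
        (hs' K' fun g hg => hK' g (by simp [hg]))

end CL

/-- `y` is not a product of `h` commutators of elements of `K`, even modulo `G^(M)`. -/
def Far {G : Type} [Group G] (K : Subgroup G) (M h : ℕ) (y : G) : Prop :=
  ∀ x, CL K h x → y * x⁻¹ ∉ derivedSeries G M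

section Wreath

open SemidirectProduct

lemma derived_pi {X Q : Type} [Group Q] {m : ℕ} (hQ : derivedSeries Q m = ⊥) :
    derivedSeries (X → Q) m = ⊥ := by
  rw [eq_bot_iff]
  intro f hf
  rw [Subgroup.mem_bot]
  funext x
  have := map_derivedSeries_le_derivedSeries (Pi.evalMonoidHom (fun _ : X => Q) x) m
    ⟨f, hf, rfl⟩
  rw [hQ, Subgroup.mem_bot] at this
  exact this

lemma derived_sdp {N H : Type} [Group N] [Group H] (φ : H →* MulAut N) {l m : ℕ}
    (hH : derivedSeries H l = ⊥) (hN : derivedSeries N m = ⊥) :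
    derivedSeries (N ⋊[φ] H) (l + m) = ⊥ := by
  have key : ∀ j, derivedSeries (N ⋊[φ] H) (l + j) ≤ (derivedSeries N j).map inl := by
    intro j
    induction j with
    | zero =>
      intro z hz
      have := map_derivedSeries_le_derivedSeries (rightHom : N ⋊[φ] H →* H) l ⟨z, hz, rfl⟩
      rw [hH, Subgroup.mem_bot] at this
      have h2 : z ∈ (inl : N →* N ⋊[φ] H).range := by
        rw [range_inl_eq_ker_rightHom]; exact this
      obtain ⟨n, rfl⟩ := h2
      exact ⟨n, trivial, rfl⟩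
    | succ j ih =>
      rw [← add_assoc, derivedSeries_succ, derivedSeries_succ, Subgroup.map_commutator]
      exact Subgroup.commutator_mono ih ih
  rw [eq_bot_iff]
  refine (key m).trans ?_
  rw [hN, Subgroup.map_bot]

lemma derived_quot (G : Type) [Group G] (M : ℕ) :
    derivedSeries (G ⧸ derivedSeries G M) M = ⊥ := by
  rw [← map_derivedSeries_eq (QuotientGroup.mk'_surjective (derivedSeries G M)) M, eq_bot_iff]
  rintro _ ⟨x, hx, rfl⟩
  rw [Subgroup.mem_bot]
  exact (QuotientGroup.eq_one_iff x).2 hx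

variable {H X Q : Type} [Group H] [Group Q] [MulAction H X]

/-- The elements of a wreath product whose top part fixes `x₀`. -/
def stab (Q : Type) [Group Q] (x₀ : X) : Subgroup ((X → Q) ⋊[mulAutArrow] H) :=
  (MulAction.stabilizer H x₀).comap rightHom

lemma left_mul_stab (x₀ : X) (z : (X → Q) ⋊[mulAutArrow] H) (hz : z ∈ stab Q x₀)
    (z' : (X → Q) ⋊[mulAutArrow] H) : (z * z').left x₀ = z.left x₀ * z'.left x₀ := by
  have h : z.right⁻¹ • x₀ = x₀ := (MulAction.stabilizer H x₀).inv_mem hz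
  rw [mul_left, Pi.mul_apply]
  congr 1
  change z'.left (z.right⁻¹ • x₀) = _
  rw [h]

lemma CL.left_stab (x₀ : X) {m : ℕ} {z : (X → Q) ⋊[mulAutArrow] H} (hz : CL (stab Q x₀) m z) :
    CL ⊤ m (z.left x₀) :=
  CL.map_on (fun z : (X → Q) ⋊[mulAutArrow] H => z.left x₀)
    (fun x hx y _ => left_mul_stab x₀ x hx y) hz

lemma comm_inl_inr (f : X → Q) (β : H) :
    (⁅(inl f : (X → Q) ⋊[mulAutArrow] H), inr β⁆ : (X → Q) ⋊[mulAutArrow] H) =
      inl (fun x => f x * (f (β⁻¹ • x))⁻¹) := by
  rw [commutatorElement_def, mul_assoc, mul_assoc, ← map_inv, ← map_inv,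
    ← mul_assoc (inr β), ← inl_aut, ← map_mul]
  rfl

end Wreath

/-- Finite solvable groups of arbitrarily large derived length. -/
lemma exists_finite_solvable (n : ℕ) : ∃ (S : Type) (_ : Group S) (_ : Finite S) (l : ℕ),
    derivedSeries S l = ⊥ ∧ ∃ s ∈ derivedSeries S n, s ≠ 1 := by
  have hP : derivedSeries (Equiv.Perm Bool) 1 = ⊥ := by
    have hc : ∀ g h : Equiv.Perm Bool, g * h = h * g := by decide
    rw [derivedSeries_one, eq_bot_iff, commutator_def, Subgroup.commutator_le]
    intro g _ h _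
    rw [Subgroup.mem_bot, commutatorElement_eq_one_iff_mul_comm]
    exact hc g h
  classical
  induction n with
  | zero =>
    exact ⟨Equiv.Perm Bool, inferInstance, inferInstance, 1, hP, Equiv.swap true false, trivial,
      by decide⟩
  | succ n ih =>
    obtain ⟨S, _, _, l, hl, s, hs, hs1⟩ := ih
    let W := (Bool → S) ⋊[mulAutArrow] Equiv.Perm Bool
    have key : ∀ j, derivedSeries S j ≤
        ((derivedSeries W (j + 1)).comap SemidirectProduct.inl).map
          (Pi.evalMonoidHom (fun _ : Bool => S) true) := by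
      intro j
      induction j with
      | zero =>
        intro t _
        refine ⟨fun x => (Pi.mulSingle true t : Bool → S) x *
          ((Pi.mulSingle true t : Bool → S) ((Equiv.swap true false)⁻¹ • x))⁻¹, ?_, ?_⟩
        · change SemidirectProduct.inl _ ∈ derivedSeries W 1
          rw [← comm_inl_inr]
          exact Subgroup.commutator_mem_commutator trivial trivial
        · simp
      | succ j ih =>
        rw [derivedSeries_succ, Subgroup.commutator_le]
        intro g hg h hh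
        obtain ⟨g', hg', rfl⟩ := ih hg
        obtain ⟨h', hh', rfl⟩ := ih hh
        refine ⟨⁅g', h'⁆, ?_, map_commutatorElement _ _ _⟩
        change SemidirectProduct.inl _ ∈ derivedSeries W (j + 1 + 1)
        rw [map_commutatorElement, derivedSeries_succ]
        exact Subgroup.commutator_mem_commutator hg' hh'
    obtain ⟨f, hf, rfl⟩ := key n hs
    refine ⟨W, inferInstance, Finite.of_equiv _ SemidirectProduct.equivProd.symm, 1 + l,
      derived_sdp _ hP (derived_pi hl), SemidirectProduct.inl f, hf, fun h => hs1 ?_⟩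
    have : f = 1 := SemidirectProduct.inl_injective (h.trans (map_one _).symm)
    rw [this, map_one]

/-- The product of the first `N` disjoint copies of a word. -/
def copies {ι : Type} (N : ℕ) (x : FreeGroup ι) : FreeGroup (ι × ℕ) :=
  ((List.range N).map fun i => FreeGroup.map (fun k => (k, i)) x).prod

lemma far_step {ι : Type} (n M h : ℕ) (w : FreeGroup ι) (hw : w ∈ derivedSeries _ n)
    (hfar : ∀ c, 1 ≤ c → Far ⊤ M h (w ^ c)) :
    ∃ (S : Type) (_ : Finite S) (_ : Nonempty S) (p q : FreeGroup (ι ⊕ S)) (N M' : ℕ),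
      p ∈ derivedSeries _ n ∧ q ∈ derivedSeries _ n ∧
      ∀ c, 1 ≤ c → Far ⊤ M' h (copies N ⁅p, q⁆ ^ c) := by
  classical
  obtain ⟨S, _, _, l, hl, s, hs, hs1⟩ := exists_finite_solvable n
  have hsurj : Function.Surjective (FreeGroup.lift (id : S → S)) := fun t =>
    ⟨FreeGroup.of t, by simp⟩
  obtain ⟨ℓ, hℓ, hℓs⟩ := derivedSeries_le_map_derivedSeries hsurj n hs
  have := Fintype.ofFinite S
  let N := Fintype.card S ^ (2 * h) + 1
  refine ⟨S, inferInstance, ⟨1⟩, FreeGroup.map Sum.inl w, FreeGroup.map Sum.inr ℓ, N, l + M,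
    map_derivedSeries_le_derivedSeries _ n ⟨w, hw, rfl⟩,
    map_derivedSeries_le_derivedSeries _ n ⟨ℓ, hℓ, rfl⟩, fun c hc x hx hD => ?_⟩
  let B := ℕ → S
  let φ : FreeGroup ((ι ⊕ S) × ℕ) →* B := FreeGroup.lift fun t =>
    Sum.elim (fun _ => 1) (fun u => Pi.mulSingle t.2 u) t.1
  obtain ⟨T, hT, hT'⟩ := hx.exists_finset
  obtain ⟨i₀, i₁, hne, hi⟩ : ∃ i₀ i₁ : Fin N, i₀ ≠ i₁ ∧
      (fun g : T => φ g i₀) = fun g : T => φ g i₁ := by
    apply Fintype.exists_ne_map_eq_of_card_lt
    rw [Fintype.card_fun, Fintype.card_fin, Fintype.card_coe]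
    exact Nat.lt_succ_of_le (Nat.pow_le_pow_right Fintype.card_pos hT)
  let B₀ : Subgroup B := (Pi.evalMonoidHom (fun _ : ℕ => S) i₀).eqLocus
    (Pi.evalMonoidHom (fun _ : ℕ => S) i₁)
  let X := B ⧸ B₀
  let x₀ : X := ((1 : B) : B ⧸ B₀)
  have hstab : MulAction.stabilizer B x₀ = B₀ := MulAction.stabilizer_quotient B₀
  let Q := FreeGroup ι ⧸ derivedSeries (FreeGroup ι) M
  let π : FreeGroup ι →* Q := QuotientGroup.mk' _
  let W := (X → Q) ⋊[mulAutArrow] B
  let ω : FreeGroup ((ι ⊕ S) × ℕ) →* W := FreeGroup.lift fun t =>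
    Sum.elim (fun k => SemidirectProduct.inl (Pi.mulSingle x₀ (π (FreeGroup.of k))))
      (fun u => SemidirectProduct.inr (Pi.mulSingle t.2 u)) t.1
  have hωφ : SemidirectProduct.rightHom.comp ω = φ := by
    ext1 t
    rcases t with ⟨k | u, i⟩ <;> simp [ω, φ]
  have hW : derivedSeries W (l + M) = ⊥ :=
    derived_sdp _ (derived_pi hl) (derived_pi (derived_quot _ M))
  have h1 : ω (copies N ⁅FreeGroup.map (Sum.inl : ι → ι ⊕ S) w,
      FreeGroup.map (Sum.inr : S → ι ⊕ S) ℓ⁆) ^ c = ω x := by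
    have := map_derivedSeries_le_derivedSeries ω (l + M) ⟨_, hD, rfl⟩
    rwa [hW, Subgroup.mem_bot, map_mul, map_inv, mul_inv_eq_one, map_pow] at this
  have h2 : CL (stab Q x₀) h (ω x) := by
    refine (hT' ((stab Q x₀).comap ω) fun g hg => ?_).map ω (fun _ h => h)
    change (SemidirectProduct.rightHom.comp ω) g ∈ MulAction.stabilizer B x₀
    rw [hωφ, hstab]
    exact congrFun hi ⟨g, hg⟩
  have h3 := h2.left_stab
  have hp : ∀ i : ℕ, ω (FreeGroup.map (fun k => (k, i)) (FreeGroup.map Sum.inl w)) =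
      SemidirectProduct.inl (Pi.mulSingle x₀ (π w)) := by
    intro i
    have : (ω.comp (FreeGroup.map (fun k => (k, i)))).comp (FreeGroup.map Sum.inl) =
        (SemidirectProduct.inl.comp (MonoidHom.mulSingle (fun _ : X => Q) x₀)).comp π := by
      ext1 k
      simp [ω]
    exact DFunLike.congr_fun this w
  have hq : ∀ i : ℕ, ω (FreeGroup.map (fun k => (k, i)) (FreeGroup.map Sum.inr ℓ)) =
      SemidirectProduct.inr (Pi.mulSingle i s) := by
    intro i
    have : (ω.comp (FreeGroup.map (fun k => (k, i)))).comp (FreeGroup.map Sum.inr) =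
        (SemidirectProduct.inr.comp (MonoidHom.mulSingle (fun _ : ℕ => S) i)).comp
          (FreeGroup.lift id) := by
      ext1 k
      simp [ω]
    rw [← hℓs]
    exact DFunLike.congr_fun this ℓ
  let e : ℕ → ℕ := fun i => if (Pi.mulSingle i s : B) ∈ B₀ then 0 else 1
  have h4 : ∀ j, ∃ f : X → Q,
      ω (copies j ⁅FreeGroup.map (Sum.inl : ι → ι ⊕ S) w,
        FreeGroup.map (Sum.inr : S → ι ⊕ S) ℓ⁆) = SemidirectProduct.inl f ∧
      f x₀ = π w ^ (∑ i ∈ Finset.range j, e i) := by
    intro j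
    induction j with
    | zero => exact ⟨1, by simp [copies], by simp⟩
    | succ j ih =>
      obtain ⟨f, hf, hf'⟩ := ih
      refine ⟨f * fun x => (Pi.mulSingle x₀ (π w) : X → Q) x *
        ((Pi.mulSingle x₀ (π w) : X → Q) ((Pi.mulSingle j s : B)⁻¹ • x))⁻¹, ?_, ?_⟩
      · rw [map_mul, ← comm_inl_inr, ← hf, ← hp j, ← hq j]
        simp only [copies, List.range_succ, List.map_append, List.prod_append, map_mul,
          List.map_cons, List.map_nil, List.prod_cons, List.prod_nil, mul_one,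
          map_commutatorElement]
      · rw [Pi.mul_apply, hf', Finset.sum_range_succ, pow_add]
        congr 1
        by_cases hj : (Pi.mulSingle j s : B) ∈ B₀
        · have : (Pi.mulSingle j s : B)⁻¹ • x₀ = x₀ := by
            rw [← MulAction.mem_stabilizer_iff, hstab]; exact B₀.inv_mem hj
          simp [e, hj, this]
        · have : (Pi.mulSingle j s : B)⁻¹ • x₀ ≠ x₀ := by
            rw [Ne, ← MulAction.mem_stabilizer_iff, hstab]; exact fun h => hj (inv_mem_iff.1 h)
          simp [e, hj, Pi.mulSingle_eq_of_ne this]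
  obtain ⟨f, hf, hf'⟩ := h4 N
  have he : 1 ≤ ∑ i ∈ Finset.range N, e i := by
    refine le_trans ?_ (Finset.single_le_sum (f := e) (fun _ _ => Nat.zero_le _)
      (Finset.mem_range.2 i₀.2))
    have : (Pi.mulSingle (i₀ : ℕ) s : B) ∉ B₀ := by
      intro h
      have h' : (Pi.mulSingle (i₀ : ℕ) s : B) i₀ = (Pi.mulSingle (i₀ : ℕ) s : B) i₁ := h
      rw [Pi.mulSingle_eq_same, Pi.mulSingle_eq_of_ne (fun h => hne (Fin.ext h).symm)] at h'
      exact hs1 h'
    simp [e, this]
  rw [← h1, hf, ← map_pow, SemidirectProduct.left_inl, Pi.pow_apply, hf', ← pow_mul,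
    ← map_pow] at h3
  obtain ⟨x', hx', hx''⟩ := CL.lift (K := ⊤) π
    (fun y _ => by obtain ⟨x, rfl⟩ := QuotientGroup.mk'_surjective _ y; exact ⟨x, trivial, rfl⟩) h3
  refine hfar _ (Nat.mul_pos he hc) x' hx' ?_
  rw [← QuotientGroup.eq_one_iff]
  change π _ = 1
  rw [map_mul, map_inv, hx'', mul_inv_cancel]

lemma exists_far (n h : ℕ) : ∃ (ι : Type) (_ : Countable ι) (w : FreeGroup ι) (M : ℕ),
    w ∈ derivedSeries _ n ∧ ∀ c, 1 ≤ c → Far ⊤ M h (w ^ c) := by
  induction n with
  | zero =>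
    refine ⟨Unit, inferInstance, FreeGroup.of (), 1, trivial, fun c hc x hx hD => ?_⟩
    let f : FreeGroup Unit →* Multiplicative ℤ := FreeGroup.lift fun _ => Multiplicative.ofAdd 1
    have hx1 : f x = 1 := by
      clear hD
      induction hx with
      | one m => exact map_one f
      | cons p q _ _ _ ih =>
        rw [map_mul, ih, mul_one, map_commutatorElement, commutatorElement_eq_one_iff_mul_comm,
          mul_comm]
    have h1 := map_derivedSeries_le_derivedSeries f 1 ⟨_, hD, rfl⟩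
    rw [derivedSeries_one, commutator_eq_bot, Subgroup.mem_bot, map_mul, map_inv,
      hx1, map_pow] at h1
    have h2 := congrArg Multiplicative.toAdd h1
    simp [f] at h2
    omega
  | succ n ih =>
    obtain ⟨ι, _, w, M, hw, hfar⟩ := ih
    obtain ⟨S, _, _, p, q, N, M', hp, hq, hfar'⟩ := far_step n M h w hw hfar
    refine ⟨(ι ⊕ S) × ℕ, inferInstance, copies N ⁅p, q⁆, M', ?_, hfar'⟩
    apply Subgroup.list_prod_mem
    intro y hy
    obtain ⟨i, _, rfl⟩ := List.mem_map.1 hy
    exact map_derivedSeries_le_derivedSeries (FreeGroup.map fun k => (k, i)) (n + 1)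
      ⟨_, Subgroup.commutator_mem_commutator hp hq, rfl⟩

lemma exists_far_copies (n h : ℕ) : ∃ (ι : Type) (_ : Countable ι) (_ : Nonempty ι)
    (p q : FreeGroup ι) (N M : ℕ), p ∈ derivedSeries _ n ∧ q ∈ derivedSeries _ n ∧
      Far ⊤ M h (copies N ⁅p, q⁆) := by
  obtain ⟨ι, _, w, M, hw, hfar⟩ := exists_far n h
  obtain ⟨S, _, _, p, q, N, M', hp, hq, hfar'⟩ := far_step n M h w hw hfar
  exact ⟨ι ⊕ S, inferInstance, inferInstance, p, q, N, M', hp, hq, by simpa using hfar' 1 le_rfl⟩

end Pool.Agent.Lib.MP_6bd4d3_al
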