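import Pool.Agent.Lib.MP_6bd4d3_al.Step

/-!
Elements deep in the derived series of a free group whose powers are far from products of few
commutators and `r`-th powers.
-/

open scoped commutatorElement

namespace Pool.Agent.Lib.MP_6bd4d3_al

/-- `CP r K m x`: `x` is a product of at most `m` commutators and `r`-th powers from `K`. -/
inductive CP {G : Type} [Group G] (r : ℕ) (K : Subgroup G) : ℕ → G → Prop
  | one (m : ℕ) : CP r K m 1
  | comm {m : ℕ} {x : G} (p q : G) (hp : p ∈ K) (hq : q ∈ K) (hx : CP r K m x) :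
      CP r K (m + 1) (⁅p, q⁆ * x)
  | pow {m : ℕ} {x : G} (g : G) (hg : g ∈ K) (hx : CP r K m x) : CP r K (m + 1) (g ^ r * x)

section CP

variable {G : Type} [Group G] {K : Subgroup G} {r : ℕ}

lemma CL.toCP {m : ℕ} {x : G} (h : CL K m x) : CP r K m x := by
  induction h with
  | one m => exact CP.one _
  | cons p q hp hq hx ih => exact CP.comm p q hp hq ih

lemma CP.mono_len {m m' : ℕ} {x : G} (h : CP r K m x) (hm : m ≤ m') : CP r K m' x := by
  induction h generalizing m' with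
  | one m => exact CP.one _
  | comm p q hp hq hx ih =>
    obtain ⟨j, rfl⟩ : ∃ j, m' = j + 1 := ⟨m' - 1, by omega⟩
    exact CP.comm p q hp hq (ih (by omega))
  | pow g hg hx ih =>
    obtain ⟨j, rfl⟩ : ∃ j, m' = j + 1 := ⟨m' - 1, by omega⟩
    exact CP.pow g hg (ih (by omega))

lemma CP.mul {m m' : ℕ} {x y : G} (hx : CP r K m x) (hy : CP r K m' y) :
    CP r K (m + m') (x * y) := by
  induction hx with
  | one m => rw [one_mul]; exact hy.mono_len (by omega)
  | comm p q hp hq hx ih =>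
    rw [mul_assoc, Nat.add_right_comm]
    exact CP.comm p q hp hq ih
  | pow g hg hx ih =>
    rw [mul_assoc, Nat.add_right_comm]
    exact CP.pow g hg ih

lemma CP.map {Q : Type} [Group Q] {K' : Subgroup Q} (f : G →* Q) (hf : ∀ x ∈ K, f x ∈ K')
    {m : ℕ} {x : G} (hx : CP r K m x) : CP r K' m (f x) := by
  induction hx with
  | one m => rw [map_one]; exact CP.one _
  | comm p q hp hq hx ih =>
    rw [map_mul, map_commutatorElement]
    exact CP.comm _ _ (hf p hp) (hf q hq) ih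
  | pow g hg hx ih =>
    rw [map_mul, map_pow]
    exact CP.pow _ (hf g hg) ih

lemma CP.lift {Q : Type} [Group Q] {K' : Subgroup Q} (f : G →* Q)
    (hf : ∀ y ∈ K', ∃ x ∈ K, f x = y) {m : ℕ} {y : Q} (hy : CP r K' m y) :
    ∃ x, CP r K m x ∧ f x = y := by
  induction hy with
  | one m => exact ⟨1, CP.one _, map_one f⟩
  | comm p q hp hq hx ih =>
    obtain ⟨p', hp', rfl⟩ := hf p hp
    obtain ⟨q', hq', rfl⟩ := hf q hq
    obtain ⟨x', hx', rfl⟩ := ih
    exact ⟨⁅p', q'⁆ * x', CP.comm _ _ hp' hq' hx', by rw [map_mul, map_commutatorElement]⟩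
  | pow g hg hx ih =>
    obtain ⟨g', hg', rfl⟩ := hf g hg
    obtain ⟨x', hx', rfl⟩ := ih
    exact ⟨g' ^ r * x', CP.pow _ hg' hx', by rw [map_mul, map_pow]⟩

lemma CP.map_on {Q : Type} [Group Q] (f : G → Q) (hf : ∀ x ∈ K, ∀ y ∈ K, f (x * y) = f x * f y)
    {m : ℕ} {x : G} (hx : CP r K m x) : CP r ⊤ m (f x) := by
  let f' : K →* Q := MonoidHom.mk' (fun x => f x) (fun x y => hf x x.2 y y.2)
  obtain ⟨x', hx', rfl⟩ := CP.lift (K := ⊤) K.subtype (fun y hy => ⟨⟨y, hy⟩, trivial, rfl⟩) hx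
  exact hx'.map f' (fun _ _ => Subgroup.mem_top _)

lemma CP.exists_finset {m : ℕ} {x : G} (hx : CP r K m x) :
    ∃ s : Finset G, s.card ≤ 2 * m ∧ ∀ K' : Subgroup G, (∀ g ∈ s, g ∈ K') → CP r K' m x := by
  classical
  induction hx with
  | one m => exact ⟨∅, by simp, fun K' _ => CP.one _⟩
  | comm p q hp hq hx ih =>
    obtain ⟨s, hs, hs'⟩ := ih
    refine ⟨insert p (insert q s), ?_, fun K' hK' => ?_⟩
    · have h1 := Finset.card_insert_le p (insert q s)
      have h2 := Finset.card_insert_le q s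
      omega
    · exact CP.comm p q (hK' p (by simp)) (hK' q (by simp))
        (hs' K' fun g hg => hK' g (by simp [hg]))
  | pow g hg hx ih =>
    obtain ⟨s, hs, hs'⟩ := ih
    refine ⟨insert g s, ?_, fun K' hK' => ?_⟩
    · have h1 := Finset.card_insert_le g s
      omega
    · exact CP.pow g (hK' g (by simp)) (hs' K' fun g hg => hK' g (by simp [hg]))

lemma CL.pow_mul [hK : K.Normal] {m : ℕ} {x : G} (hx : CL K m x) (w : G) (c : ℕ) :
    CL K (c * m) ((x * w) ^ c * (w ^ c)⁻¹) := by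
  induction c with
  | zero => simpa using CL.one 0
  | succ c ih =>
    have h1 := hx.mul (ih.map (MulAut.conj w).toMonoidHom fun y hy => hK.conj_mem y hy w)
    rw [show (c + 1) * m = m + c * m by ring]
    refine (congrArg (CL K _) ?_).mp h1
    simp only [MulEquiv.coe_toMonoidHom, MulAut.conj_apply]
    rw [pow_succ' (x * w), pow_succ w]
    group

end CP

/-- No power `y ^ c` with `c` not divisible by `r` is a product of `h` commutators and `r`-th
powers of elements of `K`, even modulo `G^(M)`. -/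
def FarP {G : Type} [Group G] (r : ℕ) (K : Subgroup G) (M h : ℕ) (y : G) : Prop :=
  ∀ c, ¬r ∣ c → ∀ x, CP r K h x → y ^ c * x⁻¹ ∉ derivedSeries G M

lemma CP.left_stab {H X Q : Type} [Group H] [Group Q] [MulAction H X] {r : ℕ} (x₀ : X) {m : ℕ}
    {z : (X → Q) ⋊[mulAutArrow] H} (hz : CP r (stab Q x₀) m z) : CP r ⊤ m (z.left x₀) :=
  CP.map_on (fun z : (X → Q) ⋊[mulAutArrow] H => z.left x₀)
    (fun x hx y _ => left_mul_stab x₀ x hx y) hz

lemma farP_step {r : ℕ} (hr : r.Prime ∨ r = 0) {ι : Type} (n M h : ℕ) (w : FreeGroup ι)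
    (hw : w ∈ derivedSeries _ n) (hfar : FarP r ⊤ M h w) :
    ∃ (S : Type) (_ : Finite S) (_ : Nonempty S) (p q : FreeGroup (ι ⊕ S)) (N M' : ℕ),
      p ∈ derivedSeries _ n ∧ q ∈ derivedSeries _ n ∧ FarP r ⊤ M' h (copies N ⁅p, q⁆) := by
  classical
  obtain ⟨E, hE2, hE⟩ : ∃ E : ℕ, 2 ≤ E ∧ ¬r ∣ E := by
    rcases hr with hr | rfl
    · exact ⟨r + 1, by have := hr.two_le; omega, fun h1 =>
        hr.one_lt.ne' (Nat.dvd_one.mp ((Nat.dvd_add_right (dvd_refl r)).mp h1))⟩
    · exact ⟨2, le_rfl, by omega⟩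
  obtain ⟨S, _, _, l, hl, s, hs, hs1⟩ := exists_finite_solvable n
  have hsurj : Function.Surjective (FreeGroup.lift (id : S → S)) := fun t =>
    ⟨FreeGroup.of t, by simp⟩
  obtain ⟨ℓ, hℓ, hℓs⟩ := derivedSeries_le_map_derivedSeries hsurj n hs
  have := Fintype.ofFinite S
  let N := Fintype.card S ^ (2 * h) * E + 1
  refine ⟨S, inferInstance, ⟨1⟩, FreeGroup.map Sum.inl w, FreeGroup.map Sum.inr ℓ, N, l + M,
    map_derivedSeries_le_derivedSeries _ n ⟨w, hw, rfl⟩,
    map_derivedSeries_le_derivedSeries _ n ⟨ℓ, hℓ, rfl⟩, fun c hc x hx hD => ?_⟩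
  let B := ℕ → S
  let φ : FreeGroup ((ι ⊕ S) × ℕ) →* B := FreeGroup.lift fun t =>
    Sum.elim (fun _ => 1) (fun u => Pi.mulSingle t.2 u) t.1
  obtain ⟨T, hT, hT'⟩ := hx.exists_finset
  obtain ⟨y₀, -, hy₀⟩ := Finset.exists_lt_card_fiber_of_mul_lt_card_of_maps_to
    (s := Finset.range N) (t := (Finset.univ : Finset (T → S))) (f := fun i (g : T) => φ g i)
    (n := E) (fun _ _ => Finset.mem_univ _) (by
      rw [Finset.card_univ, Fintype.card_fun, Fintype.card_coe, Finset.card_range]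
      exact Nat.lt_succ_of_le
        (Nat.mul_le_mul_right _ (Nat.pow_le_pow_right Fintype.card_pos hT)))
  obtain ⟨I, hI, hIc⟩ := Finset.exists_subset_card_eq hy₀.le
  let B₀ : Subgroup B :=
    { carrier := {b | ∀ i ∈ I, ∀ j ∈ I, b i = b j}
      one_mem' := fun _ _ _ _ => rfl
      mul_mem' := fun {b b'} hb hb' i hi j hj => by
        rw [Pi.mul_apply, Pi.mul_apply, hb i hi j hj, hb' i hi j hj]
      inv_mem' := fun {b} hb i hi j hj => by rw [Pi.inv_apply, Pi.inv_apply, hb i hi j hj] }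
  have hB₀ : ∀ j : ℕ, (Pi.mulSingle j s : B) ∈ B₀ ↔ j ∉ I := by
    intro j
    constructor
    · intro h1 hj
      obtain ⟨i, hi, hij⟩ := Finset.exists_mem_ne (show 1 < I.card by omega) j
      have h' : (Pi.mulSingle j s : B) j = (Pi.mulSingle j s : B) i := h1 j hj i hi
      rw [Pi.mulSingle_eq_same, Pi.mulSingle_eq_of_ne hij] at h'
      exact hs1 h'
    · intro hj i hi i' hi'
      rw [Pi.mulSingle_eq_of_ne (ne_of_mem_of_not_mem hi hj),
        Pi.mulSingle_eq_of_ne (ne_of_mem_of_not_mem hi' hj)]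
  let X := B ⧸ B₀
  let x₀ : X := ((1 : B) : B ⧸ B₀)
  have hstab : MulAction.stabilizer B x₀ = B₀ := MulAction.stabilizer_quotient B₀
  let Q := FreeGroup ι ⧸ derivedSeries (FreeGroup ι) M
  let π : FreeGroup ι →* Q := QuotientGroup.mk' _
  let W := (X → Q) ⋊[mulAutArrow] B
  let ω : FreeGroup ((ι ⊕ S) × ℕ) →* W := FreeGroup.lift fun t =>
    Sum.elim (fun k => SemidirectProduct.inl (Pi.mulSingle x₀ (π (FreeGroup.of k))))
      (fun u => SemidirectProduct.inr (Pi.mulSingle t.2 u)) t.1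
  have hωφ : SemidirectProduct.rightHom.comp ω = φ := by
    ext1 t
    rcases t with ⟨k | u, i⟩ <;> simp [ω, φ]
  have hW : derivedSeries W (l + M) = ⊥ :=
    derived_sdp _ (derived_pi hl) (derived_pi (derived_quot _ M))
  have h1 : ω (copies N ⁅FreeGroup.map (Sum.inl : ι → ι ⊕ S) w,
      FreeGroup.map (Sum.inr : S → ι ⊕ S) ℓ⁆) ^ c = ω x := by
    have := map_derivedSeries_le_derivedSeries ω (l + M) ⟨_, hD, rfl⟩
    rwa [hW, Subgroup.mem_bot, map_mul, map_inv, mul_inv_eq_one, map_pow] at this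
  have h2 : CP r (stab Q x₀) h (ω x) := by
    refine (hT' ((stab Q x₀).comap ω) fun g hg => ?_).map ω (fun _ h => h)
    change (SemidirectProduct.rightHom.comp ω) g ∈ MulAction.stabilizer B x₀
    rw [hωφ, hstab]
    intro i hi j hj
    exact (congrFun (Finset.mem_filter.mp (hI hi)).2 ⟨g, hg⟩).trans
      (congrFun (Finset.mem_filter.mp (hI hj)).2 ⟨g, hg⟩).symm
  have h3 := h2.left_stab
  have hp : ∀ i : ℕ, ω (FreeGroup.map (fun k => (k, i)) (FreeGroup.map Sum.inl w)) =
      SemidirectProduct.inl (Pi.mulSingle x₀ (π w)) := by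
    intro i
    have : (ω.comp (FreeGroup.map (fun k => (k, i)))).comp (FreeGroup.map Sum.inl) =
        (SemidirectProduct.inl.comp (MonoidHom.mulSingle (fun _ : X => Q) x₀)).comp π := by
      ext1 k
      simp [ω]
    exact DFunLike.congr_fun this w
  have hq : ∀ i : ℕ, ω (FreeGroup.map (fun k => (k, i)) (FreeGroup.map Sum.inr ℓ)) =
      SemidirectProduct.inr (Pi.mulSingle i s) := by
    intro i
    have : (ω.comp (FreeGroup.map (fun k => (k, i)))).comp (FreeGroup.map Sum.inr) =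
        (SemidirectProduct.inr.comp (MonoidHom.mulSingle (fun _ : ℕ => S) i)).comp
          (FreeGroup.lift id) := by
      ext1 k
      simp [ω]
    rw [← hℓs]
    exact DFunLike.congr_fun this ℓ
  let e : ℕ → ℕ := fun i => if (Pi.mulSingle i s : B) ∈ B₀ then 0 else 1
  have h4 : ∀ j, ∃ f : X → Q,
      ω (copies j ⁅FreeGroup.map (Sum.inl : ι → ι ⊕ S) w,
        FreeGroup.map (Sum.inr : S → ι ⊕ S) ℓ⁆) = SemidirectProduct.inl f ∧
      f x₀ = π w ^ (∑ i ∈ Finset.range j, e i) := by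
    intro j
    induction j with
    | zero => exact ⟨1, by simp [copies], by simp⟩
    | succ j ih =>
      obtain ⟨f, hf, hf'⟩ := ih
      refine ⟨f * fun x => (Pi.mulSingle x₀ (π w) : X → Q) x *
        ((Pi.mulSingle x₀ (π w) : X → Q) ((Pi.mulSingle j s : B)⁻¹ • x))⁻¹, ?_, ?_⟩
      · rw [map_mul, ← comm_inl_inr, ← hf, ← hp j, ← hq j]
        simp only [copies, List.range_succ, List.map_append, List.prod_append, map_mul,
          List.map_cons, List.map_nil, List.prod_cons, List.prod_nil, mul_one,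
          map_commutatorElement]
      · rw [Pi.mul_apply, hf', Finset.sum_range_succ, pow_add]
        congr 1
        by_cases hj : (Pi.mulSingle j s : B) ∈ B₀
        · have : (Pi.mulSingle j s : B)⁻¹ • x₀ = x₀ := by
            rw [← MulAction.mem_stabilizer_iff, hstab]; exact B₀.inv_mem hj
          simp [e, hj, this]
        · have : (Pi.mulSingle j s : B)⁻¹ • x₀ ≠ x₀ := by
            rw [Ne, ← MulAction.mem_stabilizer_iff, hstab]; exact fun h => hj (inv_mem_iff.1 h)
          simp [e, hj, Pi.mulSingle_eq_of_ne this]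
  obtain ⟨f, hf, hf'⟩ := h4 N
  have he : ∑ i ∈ Finset.range N, e i = E := by
    rw [← hIc, Finset.card_eq_sum_ones]
    refine ((Finset.sum_subset (hI.trans (Finset.filter_subset _ _)) fun i _ hi => ?_).symm.trans
      (Finset.sum_congr rfl fun i hi => ?_))
    · exact if_pos ((hB₀ i).mpr hi)
    · exact if_neg fun h => (hB₀ i).mp h hi
  rw [← h1, hf, ← map_pow, SemidirectProduct.left_inl, Pi.pow_apply, hf', he, ← pow_mul,
    ← map_pow] at h3
  obtain ⟨x', hx', hx''⟩ := CP.lift (K := ⊤) π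
    (fun y _ => by obtain ⟨x, rfl⟩ := QuotientGroup.mk'_surjective _ y; exact ⟨x, trivial, rfl⟩) h3
  refine hfar (E * c) (fun h4 => ?_) x' hx' ?_
  · rcases hr with hr | rfl
    · exact (hr.dvd_mul.mp h4).elim hE hc
    · exact (mul_eq_zero.mp (Nat.eq_zero_of_zero_dvd h4)).elim (by omega)
        fun h5 => hc (by rw [h5])
  rw [← QuotientGroup.eq_one_iff]
  change π _ = 1
  rw [map_mul, map_inv, hx'', mul_inv_cancel]

lemma exists_farP {r : ℕ} (hr : r.Prime ∨ r = 0) (n h : ℕ) :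
    ∃ (ι : Type) (_ : Countable ι) (w : FreeGroup ι) (M : ℕ),
      w ∈ derivedSeries _ n ∧ FarP r ⊤ M h w := by
  induction n with
  | zero =>
    refine ⟨Unit, inferInstance, FreeGroup.of (), 1, trivial, fun c hc x hx hD => ?_⟩
    let f : FreeGroup Unit →* Multiplicative ℤ := FreeGroup.lift fun _ => Multiplicative.ofAdd 1
    have hx1 : (r : ℤ) ∣ (f x).toAdd := by
      clear hD
      induction hx with
      | one m => simp
      | comm p q _ _ _ ih =>
        rwa [map_mul, map_commutatorElement, commutatorElement_eq_one_iff_mul_comm.mpr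
          (mul_comm _ _), one_mul]
      | pow g _ _ ih =>
        rw [map_mul, map_pow, toAdd_mul, toAdd_pow, nsmul_eq_mul]
        exact dvd_add (dvd_mul_right _ _) ih
    have h1 := map_derivedSeries_le_derivedSeries f 1 ⟨_, hD, rfl⟩
    rw [derivedSeries_one, commutator_eq_bot, Subgroup.mem_bot, map_mul, map_inv,
      mul_inv_eq_one, map_pow] at h1
    rw [← h1] at hx1
    exact hc (by simpa [f, Int.natCast_dvd_natCast] using hx1)
  | succ n ih =>
    obtain ⟨ι, _, w, M, hw, hfar⟩ := ih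
    obtain ⟨S, _, _, p, q, N, M', hp, hq, hfar'⟩ := farP_step hr n M h w hw hfar
    refine ⟨(ι ⊕ S) × ℕ, inferInstance, copies N ⁅p, q⁆, M', ?_, hfar'⟩
    apply Subgroup.list_prod_mem
    intro y hy
    obtain ⟨i, _, rfl⟩ := List.mem_map.1 hy
    exact map_derivedSeries_le_derivedSeries (FreeGroup.map fun k => (k, i)) (n + 1)
      ⟨_, Subgroup.commutator_mem_commutator hp hq, rfl⟩

lemma exists_farP_copies {r : ℕ} (hr : r.Prime ∨ r = 0) (n h : ℕ) :
    ∃ (ι : Type) (_ : Countable ι) (_ : Nonempty ι) (p q : FreeGroup ι) (N M : ℕ),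
      p ∈ derivedSeries _ n ∧ q ∈ derivedSeries _ n ∧ FarP r ⊤ M h (copies N ⁅p, q⁆) := by
  obtain ⟨ι, _, w, M, hw, hfar⟩ := exists_farP hr n h
  obtain ⟨S, _, _, p, q, N, M', hp, hq, hfar'⟩ := farP_step hr n M h w hw hfar
  exact ⟨ι ⊕ S, inferInstance, inferInstance, p, q, N, M', hp, hq, hfar'⟩

end Pool.Agent.Lib.MP_6bd4d3_al
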