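import Mathlib

/-!
The map `H₂(G, ℤ) → (ker χ)ᵃᵇ` attached to a surjection `χ : G → ℤ`, evaluated on classes coming
from a genus four surface relation.
-/

open Finsupp groupHomology
open scoped commutatorElement

namespace Pool.Agent.Lib.MP_6bd4d3_al

lemma exists_antiderivative {A : Type*} [AddCommGroup A] (f : ℤ → A) :
    ∃ N : ℤ → A, N 0 = 0 ∧ ∀ m, N (m + 1) = N m + f m := by
  refine ⟨fun m => ∑ i ∈ Finset.Ico 0 m, f i - ∑ i ∈ Finset.Ico m 0, f i, by simp, fun m => ?_⟩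
  rcases le_or_gt 0 m with h | h
  · have e1 : Finset.Ico (m + 1) 0 = ∅ := Finset.Ico_eq_empty (by omega)
    have e2 : Finset.Ico m 0 = ∅ := Finset.Ico_eq_empty (by omega)
    have e3 : Finset.Ico 0 (m + 1) = insert m (Finset.Ico 0 m) := by
      ext i; simp only [Finset.mem_Ico, Finset.mem_insert]; omega
    simp only [e1, e2, e3]
    rw [Finset.sum_insert (by simp)]
    abel
  · have e1 : Finset.Ico 0 (m + 1) = ∅ := Finset.Ico_eq_empty (by omega)
    have e2 : Finset.Ico 0 m = ∅ := Finset.Ico_eq_empty (by omega)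
    have e3 : Finset.Ico m 0 = insert m (Finset.Ico (m + 1) 0) := by
      ext i; simp only [Finset.mem_Ico, Finset.mem_insert]; omega
    simp only [e1, e2, e3]
    rw [Finset.sum_insert (by simp)]
    abel

/-- A cocycle with values in the abelianization of the kernel of `χ`. -/
lemma exists_cocycle {G : Type} [Group G] (χ : G →* Multiplicative ℤ) (a : G)
    (ha : χ a = Multiplicative.ofAdd 1) :
    ∃ Θ : G × G → Additive (Abelianization χ.ker),
      (∀ g h l, Θ (h, l) - Θ (g * h, l) + Θ (g, h * l) - Θ (g, h) = 0) ∧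
      (∀ g h, χ g = 1 → Θ (g, h) = 0) ∧
      ∀ g (k : χ.ker), χ g = Multiplicative.ofAdd 1 →
        Θ (g, k) = Additive.ofMul (Abelianization.of k) := by
  let V := Additive (Abelianization χ.ker)
  let σ : G → V →+ V := fun g =>
    MonoidHom.toAdditive (Abelianization.map (MulAut.conjNormal g : MulAut χ.ker).toMonoidHom)
  have σ_of : ∀ g (k : χ.ker), σ g (Additive.ofMul (Abelianization.of k)) =
      Additive.ofMul (Abelianization.of (MulAut.conjNormal g k)) := fun g k => rfl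
  have surj : ∀ v : V, ∃ k : χ.ker, v = Additive.ofMul (Abelianization.of k) := by
    intro v
    obtain ⟨k, hk⟩ := QuotientGroup.mk_surjective (Additive.toMul v)
    exact ⟨k, congrArg Additive.ofMul hk.symm⟩
  have σ_mul : ∀ g h v, σ (g * h) v = σ g (σ h v) := by
    intro g h v
    obtain ⟨k, rfl⟩ := surj v
    rw [σ_of, σ_of, σ_of, map_mul]
    rfl
  have σ_one : ∀ v, σ 1 v = v := by
    intro v
    obtain ⟨k, rfl⟩ := surj v
    rw [σ_of, map_one]
    rfl
  have hmem : ∀ g : G, g * a ^ (-(χ g).toAdd) ∈ χ.ker := by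
    intro g
    rw [MonoidHom.mem_ker, map_mul, map_zpow, ha]
    apply Multiplicative.toAdd.injective
    simp
  let κ : G → V := fun g => Additive.ofMul (Abelianization.of ⟨_, hmem g⟩)
  have κ_mul : ∀ g h, κ (g * h) = κ g + σ (a ^ (χ g).toAdd) (κ h) := by
    intro g h
    simp only [κ]
    rw [σ_of, ← ofMul_mul, ← map_mul]
    congr 2
    ext
    simp only [map_mul, toAdd_mul, Subgroup.coe_mul, MulAut.conjNormal_apply]
    group
  obtain ⟨N, N0, Ns⟩ := exists_antiderivative (fun m : ℤ => σ (a ^ m))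
  have Nadd : ∀ g h : ℤ, ∀ v, N (h + g) v = N h v + N g (σ (a ^ h) v) := by
    intro g h v
    induction g using Int.induction_on with
    | zero => simp [N0]
    | succ i ih =>
      rw [← add_assoc, Ns, Ns]
      simp only [AddMonoidHom.add_apply]
      rw [ih, ← σ_mul, ← zpow_add, add_comm (i : ℤ) h]
      abel
    | pred i ih =>
      have e1 := Ns (h + (-(i : ℤ) - 1))
      have e2 := Ns (-(i : ℤ) - 1)
      rw [show h + (-(i : ℤ) - 1) + 1 = h + -(i : ℤ) by ring] at e1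
      rw [show (-(i : ℤ) - 1) + 1 = -(i : ℤ) by ring] at e2
      rw [e1, e2] at ih
      simp only [AddMonoidHom.add_apply] at ih
      rw [← σ_mul, ← zpow_add, add_comm (-(i : ℤ) - 1) h, ← add_assoc] at ih
      exact add_right_cancel ih
  refine ⟨fun p => N (χ p.1).toAdd (κ p.2), fun g h l => ?_, fun g h hg => ?_, fun g k hg => ?_⟩
  · simp only [map_mul, toAdd_mul]
    rw [κ_mul, map_add, add_comm (χ g).toAdd, Nadd]
    abel
  · simp [hg, N0]
  · have e := Ns 0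
    simp only [hg, toAdd_ofAdd]
    rw [zero_add, N0, zero_add, zpow_zero] at e
    rw [e, σ_one]
    simp only [κ]
    congr 2
    ext
    have : χ k = 1 := k.2
    simp [this]

/-- If `H₂(G, ℤ)` is countable, the classes in `(ker χ)ᵃᵇ` of the second entries of genus four
surface relations form a countable set. -/
theorem countable_classes {G : Type} [Group G] (χ : G →* Multiplicative ℤ) (a : G)
    (ha : χ a = Multiplicative.ofAdd 1)
    (hc : Countable (groupHomology (Rep.trivial ℤ G ℤ) 2)) :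
    {v : Abelianization χ.ker | ∃ (p₁ : G) (q₁ : χ.ker) (p₂ q₂ p₃ q₃ p₄ q₄ : G),
      χ p₁ = Multiplicative.ofAdd 1 ∧ χ p₂ = 1 ∧ χ q₂ = 1 ∧ χ p₃ = 1 ∧ χ q₃ = 1 ∧
      χ p₄ = 1 ∧ χ q₄ = 1 ∧
      ⁅p₁, (q₁ : G)⁆ * ⁅p₂, q₂⁆ * ⁅p₃, q₃⁆ * ⁅p₄, q₄⁆ = 1 ∧ v = Abelianization.of q₁}.Countable := by
  classical
  obtain ⟨Θ, hΘ, hΘ0, hΘ1⟩ := exists_cocycle χ a ha
  let A := Rep.trivial ℤ G ℤ
  let Λ : (G × G →₀ A) →ₗ[ℤ] Additive (Abelianization χ.ker) := Finsupp.linearCombination ℤ Θ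
  have Λs : ∀ g : G × G, Λ (single g (1 : ℤ)) = Θ g := fun g => by
    simp only [Λ]
    exact (Finsupp.linearCombination_single ℤ (1 : ℤ) g).trans (one_smul _ _)
  have hΛ : ∀ x ∈ boundaries₂ A, Λ x = 0 := by
    rintro _ ⟨y, rfl⟩
    induction y using Finsupp.induction_linear with
    | zero => simp
    | add f g hf hg => rw [map_add, map_add, hf, hg, add_zero]
    | single g n =>
      have e : (single g n : G × G × G →₀ A) = (n : ℤ) • single g (1 : ℤ) := by
        ext; simp [Finsupp.single_apply]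
      rw [e, map_smul, map_smul]
      have : Λ ((d₃₂ A).hom (single g (1 : ℤ))) = 0 := by
        erw [d₃₂_single]
        rw [map_sub, map_add, map_sub]
        erw [Λs, Λs, Λs, Λs]
        exact hΘ _ _ _
      rw [this, smul_zero]
  have hfac : ∀ x : groupHomology A 2, ∃ v, ∀ z : cycles₂ A, H2π A z = x → Λ z.1 = v := by
    intro x
    induction x using H2_induction_on with
    | h z₀ =>
      refine ⟨Λ z₀.1, fun z hz => ?_⟩
      have := hΛ _ ((H2π_eq_iff z z₀).1 hz)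
      rwa [map_sub, sub_eq_zero] at this
  choose F hF using hfac
  refine (Set.countable_range fun x => Additive.toMul (F x)).mono ?_
  rintro v ⟨p₁, q₁, p₂, q₂, p₃, q₃, p₄, q₄, h1, h2, h3, h4, h5, h6, h7, hr, rfl⟩
  let s : G → G → (G × G →₀ A) := fun g h => single (g, h) (1 : ℤ)
  let t : G → (G →₀ A) := fun g => single g (1 : ℤ)
  have ds : ∀ g h, (d₂₁ A).hom (s g h) = t h - t (g * h) + t g := fun g h => by
    erw [d₂₁_single]; rfl
  let C : G → G → (G × G →₀ A) := fun p q => s p q - s q p - s ⁅p, q⁆ (q * p)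
  have dC : ∀ p q, (d₂₁ A).hom (C p q) = -t ⁅p, q⁆ := by
    intro p q
    simp only [C, map_sub, ds]
    rw [show ⁅p, q⁆ * (q * p) = p * q by rw [commutatorElement_def]; group]
    abel
  let z : G × G →₀ A := C p₁ q₁ + C p₂ q₂ + C p₃ q₃ + C p₄ q₄ + s ⁅p₁, (q₁ : G)⁆ ⁅p₂, q₂⁆
    + s (⁅p₁, (q₁ : G)⁆ * ⁅p₂, q₂⁆) ⁅p₃, q₃⁆
    + s (⁅p₁, (q₁ : G)⁆ * ⁅p₂, q₂⁆ * ⁅p₃, q₃⁆) ⁅p₄, q₄⁆ + s 1 1
  have hz : z ∈ cycles₂ A := by
    change (d₂₁ A).hom z = 0
    simp only [z, map_add, dC, ds, hr, mul_one]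
    abel
  have χc : ∀ p q : G, χ ⁅p, q⁆ = 1 := fun p q => by
    rw [map_commutatorElement, commutatorElement_eq_one_iff_mul_comm, mul_comm]
  have hq₁ : χ q₁ = 1 := q₁.2
  have Λs' : ∀ g h, Λ (s g h) = Θ (g, h) := fun g h => Λs (g, h)
  have hv : Λ z = Additive.ofMul (Abelianization.of q₁) := by
    simp only [z, C, map_add, map_sub, Λs']
    rw [hΘ1 p₁ q₁ h1, hΘ0 _ _ hq₁, hΘ0 _ _ h2, hΘ0 _ _ h3, hΘ0 _ _ h4, hΘ0 _ _ h5,
      hΘ0 _ _ h6, hΘ0 _ _ h7, hΘ0 _ _ (χc _ _),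
      hΘ0 _ _ (χc _ _), hΘ0 _ _ (χc _ _), hΘ0 _ _ (χc _ _), hΘ0 _ _ (χc _ _),
      hΘ0 _ _ (map_one χ), hΘ0 _ _ (by rw [map_mul, χc, χc, mul_one]),
      hΘ0 _ _ (by rw [map_mul, map_mul, χc, χc, χc, mul_one, mul_one])]
    simp
  refine ⟨H2π A ⟨z, hz⟩, ?_⟩
  simp only
  rw [← hF _ ⟨z, hz⟩ rfl, hv]
  rfl

end Pool.Agent.Lib.MP_6bd4d3_al
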