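import Pool.Agent.Lib.MP_6bd4d3_al.FarP

/-!
The inductive step and the recursive construction, with powers.
-/

open scoped commutatorElement

namespace Pool.Agent.Lib.MP_6bd4d3_al

variable {α : Type} {a b : α}

theorem exists_farP_conjProd {r : ℕ} (hr : r.Prime ∨ r = 0) (hab : a ≠ b) (n h : ℕ) :
    ∃ (p q : FreeGroup α) (N M : ℕ),
    p ∈ derivedSeries _ n ∧ q ∈ derivedSeries _ n ∧
    p ∈ slid (FreeGroup.of a) (FreeGroup.of b) ∧ q ∈ slid (FreeGroup.of a) (FreeGroup.of b) ∧
    FarP r (chi a).ker M h (conjProd (FreeGroup.of a) ⁅p, q⁆ N) := by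
  classical
  obtain ⟨ι, _, _, p, q, N, M, hp, hq, hfar⟩ := exists_farP_copies hr n h
  obtain ⟨enc, henc⟩ := Countable.exists_injective_nat ι
  let dec : ℕ → ι := Function.invFun enc
  have hdec : ∀ k, dec (enc k) = k := Function.leftInverse_invFun henc
  let A : FreeGroup α := FreeGroup.of a
  let B : FreeGroup α := FreeGroup.of b
  let E : FreeGroup ι →* FreeGroup α := FreeGroup.lift fun k =>
    A ^ (1 - ((enc k * N : ℕ) : ℤ)) * B * A ^ (-(1 - ((enc k * N : ℕ) : ℤ)))
  have hE : ∀ x, E x ∈ slid A B := by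
    intro x
    induction x using FreeGroup.induction_on with
    | C1 => rw [map_one]; exact Subgroup.one_mem _
    | of k => rw [FreeGroup.lift_apply_of]; exact conj_mem_slid _ _ _
    | inv_of k hk => rw [map_inv]; exact Subgroup.inv_mem _ hk
    | mul x y hx hy => rw [map_mul]; exact Subgroup.mul_mem _ hx hy
  refine ⟨E p, E q, N, 1 + M, map_derivedSeries_le_derivedSeries E n ⟨p, hp, rfl⟩,
    map_derivedSeries_le_derivedSeries E n ⟨q, hq, rfl⟩, hE p, hE q, fun c hc x hx hD => ?_⟩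
  let Γ := FreeGroup (ι × ℕ) ⧸ derivedSeries (FreeGroup (ι × ℕ)) M
  let π : FreeGroup (ι × ℕ) →* Γ := QuotientGroup.mk' _
  let Z := Multiplicative ℤ
  let W := (Z → Γ) ⋊[mulAutArrow] Z
  let g : Z → Γ := fun e => π (FreeGroup.of (dec (e.toAdd.toNat / N), e.toAdd.toNat % N))
  let ρ : FreeGroup α →* W := FreeGroup.lift fun t =>
    if t = a then SemidirectProduct.inr (Multiplicative.ofAdd 1)
    else if t = b then SemidirectProduct.inl g else 1
  have hρA : ρ A = SemidirectProduct.inr (Multiplicative.ofAdd 1) := by simp [ρ, A]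
  have hρB : ρ B = SemidirectProduct.inl g := by simp [ρ, B, hab.symm]
  have hρχ : SemidirectProduct.rightHom.comp ρ = chi a := by
    ext1 t
    by_cases h1 : t = a
    · simp [ρ, chi, h1]
    · by_cases h2 : t = b
      · simp [ρ, chi, h2, hab.symm]
      · simp [ρ, chi, h1, h2]
  have hW : derivedSeries W (1 + M) = ⊥ :=
    derived_sdp _ derived_Z (derived_pi (derived_quot _ M))
  have h1 : ρ (conjProd A ⁅E p, E q⁆ N) ^ c = ρ x := by
    have := map_derivedSeries_le_derivedSeries ρ (1 + M) ⟨_, hD, rfl⟩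
    rwa [hW, Subgroup.mem_bot, map_mul, map_inv, mul_inv_eq_one, map_pow] at this
  have h2 : CP r (stab Γ (1 : Z)) h (ρ x) := by
    refine hx.map ρ fun y hy => ?_
    change (SemidirectProduct.rightHom.comp ρ) y ∈ MulAction.stabilizer Z (1 : Z)
    rw [hρχ, MonoidHom.mem_ker.1 hy]
    exact Subgroup.one_mem _
  have h3 := h2.left_stab
  have hconj : ∀ j : ℤ, ρ (A ^ (-j) * B * A ^ j) =
      SemidirectProduct.inl (fun e => g (Multiplicative.ofAdd j * e)) := by
    intro j
    have e1 : ρ (A ^ (-j)) = SemidirectProduct.inr (Multiplicative.ofAdd (-j)) := by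
      rw [map_zpow, hρA, ← map_zpow, ← ofAdd_zsmul]; simp
    have e2 : ρ (A ^ j) = SemidirectProduct.inr (Multiplicative.ofAdd (-j))⁻¹ := by
      rw [map_zpow, hρA, ← map_zpow, ← ofAdd_zsmul]; simp
    rw [map_mul, map_mul, e1, e2, hρB, ← SemidirectProduct.inl_aut]
    congr 1
    funext e
    change g ((Multiplicative.ofAdd (-j))⁻¹ * e) = _
    simp
  have h4 : ∀ i < N, ∀ y : FreeGroup ι, ∃ f : Z → Γ,
      ρ (A ^ (-((i : ℤ) + 1)) * E y * A ^ ((i : ℤ) + 1)) = SemidirectProduct.inl f ∧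
      f 1 = π (FreeGroup.map (fun k => (k, i)) y) := by
    intro i hi y
    let L : FreeGroup ι →* (Z → Γ) := FreeGroup.lift fun k e =>
      g (Multiplicative.ofAdd (((enc k * N + i : ℕ) : ℤ)) * e)
    have e1 : (ρ.comp (MulAut.conj (A ^ (-((i : ℤ) + 1)))).toMonoidHom).comp E =
        SemidirectProduct.inl.comp L := by
      ext1 k
      simp only [MonoidHom.comp_apply, E, L, FreeGroup.lift_apply_of]
      rw [← hconj]
      congr 1
      simp only [MulEquiv.coe_toMonoidHom, MulAut.conj_apply]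
      push_cast
      group
    have e2 : (Pi.evalMonoidHom (fun _ : Z => Γ) 1).comp L =
        π.comp (FreeGroup.map fun k => (k, i)) := by
      ext1 k
      simp only [MonoidHom.comp_apply, L, FreeGroup.lift_apply_of, Pi.evalMonoidHom_apply, g,
        mul_one, toAdd_ofAdd, Int.toNat_natCast, FreeGroup.map.of]
      rw [Nat.mul_add_mod', Nat.mod_eq_of_lt hi, add_comm, Nat.add_mul_div_right _ _ (by omega),
        Nat.div_eq_of_lt hi, zero_add, hdec]
    refine ⟨L y, ?_, DFunLike.congr_fun e2 y⟩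
    have := DFunLike.congr_fun e1 y
    simp only [MonoidHom.comp_apply, MulEquiv.coe_toMonoidHom, MulAut.conj_apply] at this
    rwa [← zpow_neg, neg_neg] at this
  have h5 : ∀ j ≤ N, ∃ f : Z → Γ, ρ (conjProd A ⁅E p, E q⁆ j) = SemidirectProduct.inl f ∧
      f 1 = π (copies j ⁅p, q⁆) := by
    intro j hj
    induction j with
    | zero => exact ⟨1, by simp [conjProd], by simp [copies]⟩
    | succ j ih =>
      obtain ⟨f, hf, hf'⟩ := ih (by omega)
      obtain ⟨f₁, hf₁, hf₁'⟩ := h4 j (by omega) ⁅p, q⁆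
      refine ⟨f * f₁, ?_, ?_⟩
      · rw [conjProd_succ, map_mul, hf, ← map_commutatorElement, hf₁, map_mul]
      · rw [Pi.mul_apply, hf', hf₁', ← map_mul]
        simp [copies, List.range_succ]
  obtain ⟨f, hf, hf'⟩ := h5 N le_rfl
  rw [← h1, hf, ← map_pow, SemidirectProduct.left_inl, Pi.pow_apply, hf', ← map_pow] at h3
  obtain ⟨x', hx', hx''⟩ := CP.lift (K := ⊤) π
    (fun y _ => by obtain ⟨x, rfl⟩ := QuotientGroup.mk'_surjective _ y; exact ⟨x, trivial, rfl⟩) h3
  refine hfar c hc x' hx' ?_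
  rw [← QuotientGroup.eq_one_iff]
  change π _ = 1
  rw [map_mul, map_inv, hx'', mul_inv_cancel]

theorem exists_stepP {r : ℕ} (hr : r.Prime ∨ r = 0) (hab : a ≠ b) (n h : ℕ) :
    ∃ (τ : Phi →* Phi) (m M : ℕ), Good τ m ∧
    (∀ x, psi a b (τ x) * (psi a b x)⁻¹ ∈ derivedSeries (FreeGroup α) n) ∧
    FarP r (chi a).ker M h (psi a b (τ (FreeGroup.of 1))) := by
  obtain ⟨p, q, N, M, hp, hq, hp', hq', hfar⟩ := exists_farP_conjProd hr hab n h
  obtain ⟨v, ⟨τ, m, hτ, e⟩, hv1, hv⟩ := reach_main (derivedSeries (FreeGroup α) n) _ _ p q hp hq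
    hp' hq' N
  refine ⟨τ, m, M, hτ, fun x => ?_, ?_⟩
  · let π := QuotientGroup.mk' (derivedSeries (FreeGroup α) n)
    have : π.comp ((psi a b).comp τ) = π.comp (psi a b) := by
      rw [psi, e]
      ext1 i
      have := (QuotientGroup.eq_one_iff _).2 (hv i)
      change π _ = 1 at this
      rw [map_mul, map_inv, mul_inv_eq_one] at this
      simpa using this
    rw [← QuotientGroup.eq_one_iff]
    change π _ = 1
    rw [map_mul, map_inv, mul_inv_eq_one]
    exact DFunLike.congr_fun this x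
  · have : psi a b (τ (FreeGroup.of 1)) = v 1 := by
      have := DFunLike.congr_fun e (FreeGroup.of 1)
      simpa [psi] using this
    rw [this, hv1]
    exact hfar

/-- The recursive construction. -/
theorem exists_familyP {r : ℕ} (hr : r.Prime ∨ r = 0) (hab : a ≠ b) :
    ∃ (n : ℕ → ℕ) (θ : (ℕ → Bool) → ℕ → Phi →* Phi),
    (∀ k, k < n k) ∧ (∀ ε k, ∃ m, Good (θ ε k) m) ∧
    (∀ ε k j, k ≤ j → ∀ x,
      psi a b (θ ε j x) * (psi a b (θ ε k x))⁻¹ ∈ derivedSeries (FreeGroup α) (n k)) ∧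
    ∀ ε ε' k, ε k = true → ε' k = false → ∀ c ≤ k, ¬r ∣ c → ∀ x, CP r (chi a).ker k x →
      (psi a b (θ ε (k + 1) (FreeGroup.of 1)) * (psi a b (θ ε' (k + 1) (FreeGroup.of 1)))⁻¹) ^ c *
        x⁻¹ ∉ derivedSeries (FreeGroup α) (n (k + 1)) := by
  choose τ m M hτ hcong hfar using exists_stepP hr hab
  let st : ℕ → ℕ × ℕ := fun k => Nat.rec (1, 0) (fun k s =>
    (max (s.1 + 1) (M s.1 (k * (s.2 + s.2) + k)), s.2 + m s.1 (k * (s.2 + s.2) + k))) k
  let t : ℕ → Phi →* Phi := fun k => τ (st k).1 (k * ((st k).2 + (st k).2) + k)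
  let θ : (ℕ → Bool) → ℕ → Phi →* Phi := fun ε k => Nat.rec (MonoidHom.id _)
    (fun k s => if ε k = true then (t k).comp s else s) k
  have st1 : ∀ k, (st (k + 1)).1 =
      max ((st k).1 + 1) (M (st k).1 (k * ((st k).2 + (st k).2) + k)) := fun k => rfl
  have st2 : ∀ k, (st (k + 1)).2 =
      (st k).2 + m (st k).1 (k * ((st k).2 + (st k).2) + k) := fun k => rfl
  have θs : ∀ ε k, θ ε (k + 1) = if ε k = true then (t k).comp (θ ε k) else θ ε k :=
    fun ε k => rfl
  have hgood : ∀ ε k, Good (θ ε k) (st k).2 := by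
    intro ε k
    induction k with
    | zero => exact Good.id _
    | succ k ih =>
      rw [θs, st2]
      split_ifs
      · exact ih.comp (hτ _ _)
      · exact ih.mono (Nat.le_add_right _ _)
  have hmono : Monotone fun k => (st k).1 :=
    monotone_nat_of_le_succ fun k => by rw [st1]; omega
  refine ⟨fun k => (st k).1, θ, fun k => ?_, fun ε k => ⟨_, hgood ε k⟩, fun ε k j hj x => ?_,
    fun ε ε' k h1 h2 c hc hrc x hx hD => ?_⟩
  · induction k with
    | zero => exact Nat.one_pos
    | succ k ih =>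
      have := st1 k
      simp only at ih ⊢
      omega
  · induction j, hj using Nat.le_induction with
    | base => simp
    | succ j hj ih =>
      rw [θs]
      split_ifs
      · have := Subgroup.mul_mem _
          (derivedSeries_antitone _ (hmono hj) (hcong (st j).1 (j * ((st j).2 + (st j).2) + j) (θ ε j x)))
          ih
        simpa [mul_assoc, t] using this
      · exact ih
  · rw [θs, θs, if_pos h1, if_neg (by simp [h2])] at hD
    have hk : ∀ y ∈ chi8.ker, psi a b y ∈ (chi a).ker := by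
      intro y hy
      change ((chi a).comp (psi a b)) y = 1
      rw [chi_psi hab]; exact hy
    have c1 := ((hgood ε k).2.2.map (t k) (hτ _ _).ker).map (psi a b) hk
    have c2 := (hgood ε' k).2.2.map (psi a b) hk
    rw [map_mul, map_inv, psi_one, inv_one, mul_one] at c2
    obtain ⟨w, hw⟩ : ∃ w, w = psi a b (t k (FreeGroup.of 1)) := ⟨_, rfl⟩
    have c3 := ((c1.mul (c2.inv.map (MulAut.conj w).toMonoidHom fun y hy =>
      (MonoidHom.normal_ker _).conj_mem y hy w)).pow_mul w c).inv.mono_len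
        (Nat.mul_le_mul_right _ hc)
    refine hfar (st k).1 _ c hrc _ (c3.toCP.mul hx) ?_
    have hle : M (st k).1 (k * ((st k).2 + (st k).2) + k) ≤ (st (k + 1)).1 := le_max_right _ _
    have hD' := derivedSeries_antitone _ hle hD
    have e : psi a b (t k (θ ε k (FreeGroup.of 1) * (FreeGroup.of 1)⁻¹)) *
        (MulAut.conj w).toMonoidHom (psi a b (θ ε' k (FreeGroup.of 1)))⁻¹ * w =
        psi a b (((t k).comp (θ ε k)) (FreeGroup.of 1)) * (psi a b (θ ε' k (FreeGroup.of 1)))⁻¹ := by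
      simp only [map_mul, map_inv, MonoidHom.comp_apply, MulEquiv.coe_toMonoidHom,
        MulAut.conj_apply, ← hw]
      group
    rw [e]
    change psi a b (t k (FreeGroup.of 1)) ^ c * _ ∈ _
    rw [← hw]
    generalize (psi a b (((t k).comp (θ ε k)) (FreeGroup.of 1)) *
      (psi a b (θ ε' k (FreeGroup.of 1)))⁻¹) ^ c = u at hD' ⊢
    refine (congrArg (· ∈ derivedSeries (FreeGroup α) _) ?_).mp
      ((derivedSeries_normal (FreeGroup α) _).conj_mem _ hD' (w ^ c * u⁻¹))
    group

end Pool.Agent.Lib.MP_6bd4d3_al
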