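import Pool.Agent.Lib.MP_6bd4d3_al.Homology
import Pool.Agent.Lib.MP_6bd4d3_al.StepP

/-!
The second homology of the prosolvable completion with coefficients in a domain has rank at least
the continuum.
-/

open Finsupp groupHomology
open scoped commutatorElement TensorProduct
open Classical

namespace Pool.Agent.Lib.MP_6bd4d3_al

/-- Independent images of classes of genus four surface relations bound the rank of `H₂`. -/
theorem rank_ge {R : Type} [CommRing R] [Nontrivial R] {G : Type} [Group G]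
    (χ : G →* Multiplicative ℤ) (a : G) (ha : χ a = Multiplicative.ofAdd 1) {U : Type}
    [AddCommGroup U] [Module R U] (j : Additive (Abelianization χ.ker) →+ U) {ι : Type}
    (v : ι → Abelianization χ.ker)
    (hv : ∀ i, ∃ (p₁ : G) (q₁ : χ.ker) (p₂ q₂ p₃ q₃ p₄ q₄ : G),
      χ p₁ = Multiplicative.ofAdd 1 ∧ χ p₂ = 1 ∧ χ q₂ = 1 ∧ χ p₃ = 1 ∧ χ q₃ = 1 ∧
      χ p₄ = 1 ∧ χ q₄ = 1 ∧
      ⁅p₁, (q₁ : G)⁆ * ⁅p₂, q₂⁆ * ⁅p₃, q₃⁆ * ⁅p₄, q₄⁆ = 1 ∧ v i = Abelianization.of q₁)
    (hli : LinearIndependent R fun i => j (Additive.ofMul (v i))) :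
    Cardinal.mk ι ≤ Module.rank R (groupHomology (Rep.trivial R G R) 2) := by
  classical
  obtain ⟨Θ, hΘ, hΘ0, hΘ1⟩ := exists_cocycle χ a ha
  let A := Rep.trivial R G R
  let Λ : (G × G →₀ A) →ₗ[R] U := Finsupp.linearCombination R fun g => j (Θ g)
  have Λs : ∀ g : G × G, Λ (single g (1 : R)) = j (Θ g) := fun g => by
    simp only [Λ]
    exact (Finsupp.linearCombination_single R (1 : R) g).trans (one_smul _ _)
  have hΛ : ∀ x ∈ boundaries₂ A, Λ x = 0 := by
    rintro _ ⟨y, rfl⟩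
    induction y using Finsupp.induction_linear with
    | zero => simp
    | add f g hf hg => rw [map_add, map_add, hf, hg, add_zero]
    | single g n =>
      have e : (single g n : G × G × G →₀ A) = (n : R) • single g (1 : R) := by
        ext; simp [Finsupp.single_apply]
      rw [e, map_smul, map_smul]
      have : Λ ((d₃₂ A).hom (single g (1 : R))) = 0 := by
        erw [d₃₂_single]
        rw [map_sub, map_add, map_sub]
        erw [Λs, Λs, Λs, Λs]
        rw [← map_sub, ← map_add, ← map_sub]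
        exact (congrArg j (hΘ _ _ _)).trans (map_zero j)
      rw [this, smul_zero]
  have hz : ∀ i, ∃ z : cycles₂ A, Λ z.1 = j (Additive.ofMul (v i)) := by
    intro i
    obtain ⟨p₁, q₁, p₂, q₂, p₃, q₃, p₄, q₄, h1, h2, h3, h4, h5, h6, h7, hr, e⟩ := hv i
    let s : G → G → (G × G →₀ A) := fun g h => single (g, h) (1 : R)
    let t : G → (G →₀ A) := fun g => single g (1 : R)
    have ds : ∀ g h, (d₂₁ A).hom (s g h) = t h - t (g * h) + t g := fun g h => by
      erw [d₂₁_single]; rfl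
    let C : G → G → (G × G →₀ A) := fun p q => s p q - s q p - s ⁅p, q⁆ (q * p)
    have dC : ∀ p q, (d₂₁ A).hom (C p q) = -t ⁅p, q⁆ := by
      intro p q
      simp only [C, map_sub, ds]
      rw [show ⁅p, q⁆ * (q * p) = p * q by rw [commutatorElement_def]; group]
      abel
    let z : G × G →₀ A := C p₁ q₁ + C p₂ q₂ + C p₃ q₃ + C p₄ q₄ + s ⁅p₁, (q₁ : G)⁆ ⁅p₂, q₂⁆
      + s (⁅p₁, (q₁ : G)⁆ * ⁅p₂, q₂⁆) ⁅p₃, q₃⁆
      + s (⁅p₁, (q₁ : G)⁆ * ⁅p₂, q₂⁆ * ⁅p₃, q₃⁆) ⁅p₄, q₄⁆ + s 1 1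
    have hz : z ∈ cycles₂ A := by
      change (d₂₁ A).hom z = 0
      simp only [z, map_add, dC, ds, hr, mul_one]
      abel
    have χc : ∀ p q : G, χ ⁅p, q⁆ = 1 := fun p q => by
      rw [map_commutatorElement, commutatorElement_eq_one_iff_mul_comm, mul_comm]
    have hq₁ : χ q₁ = 1 := q₁.2
    have Λs' : ∀ g h, Λ (s g h) = j (Θ (g, h)) := fun g h => Λs (g, h)
    refine ⟨⟨z, hz⟩, ?_⟩
    simp only [z, C, map_add, map_sub, Λs']
    rw [hΘ1 p₁ q₁ h1, hΘ0 _ _ hq₁, hΘ0 _ _ h2, hΘ0 _ _ h3, hΘ0 _ _ h4, hΘ0 _ _ h5,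
      hΘ0 _ _ h6, hΘ0 _ _ h7, hΘ0 _ _ (χc _ _),
      hΘ0 _ _ (χc _ _), hΘ0 _ _ (χc _ _), hΘ0 _ _ (χc _ _), hΘ0 _ _ (χc _ _),
      hΘ0 _ _ (map_one χ), hΘ0 _ _ (by rw [map_mul, χc, χc, mul_one]),
      hΘ0 _ _ (by rw [map_mul, map_mul, χc, χc, χc, mul_one, mul_one]), e]
    simp
  choose z hz using hz
  refine LinearIndependent.cardinal_le_rank (v := fun i => H2π A (z i))
    (linearIndependent_iff'.mpr fun t g hg => linearIndependent_iff'.mp hli t g ?_)
  have h1 : H2π A (∑ i ∈ t, g i • z i) = 0 := by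
    rw [map_sum, ← hg]
    exact Finset.sum_congr rfl fun i _ => map_smul _ _ _
  have h2 := hΛ _ ((H2π_eq_zero_iff _).1 h1)
  rw [Submodule.coe_sum, map_sum] at h2
  rw [← h2]
  exact Finset.sum_congr rfl fun i _ => by rw [Submodule.coe_smul, map_smul, hz]

theorem exists_indep (k K : Type) [Field k] [Countable k] [Field K] [Algebra k K] {W : Type}
    [AddCommGroup W] [Module k W] (w : (ℕ → Bool) → W) (hw : Function.Injective w) :
    ∃ (κ : Type) (s : κ → ℕ → Bool), Cardinal.continuum ≤ Cardinal.mk κ ∧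
      LinearIndependent K fun i => (1 : K) ⊗ₜ[k] w (s i) := by
  obtain ⟨κ, s, -, hsp, hli⟩ := exists_linearIndependent' k w
  refine ⟨κ, s, ?_, Module.Flat.linearIndependent_one_tmul hli⟩
  have h1 : ∀ δ, ∃ l : κ →₀ k, Finsupp.linearCombination k (w ∘ s) l = w δ := fun δ =>
    Finsupp.mem_span_range_iff_exists_finsupp.mp (hsp ▸ Submodule.subset_span ⟨δ, rfl⟩)
  choose l hl using h1
  have h2 : Cardinal.continuum ≤ Cardinal.mk (κ →₀ k) := by
    simpa using Cardinal.mk_le_of_injective (f := l) fun δ δ' h => hw (by rw [← hl, ← hl, h])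
  rcases finite_or_infinite κ with h | h
  · exact absurd (h2.trans Cardinal.mk_le_aleph0) (not_le.mpr Cardinal.aleph0_lt_continuum)
  · rw [Cardinal.mk_finsupp_of_infinite, le_max_iff] at h2
    exact h2.resolve_right fun h3 =>
      absurd (h3.trans Cardinal.mk_le_aleph0) (not_le.mpr Cardinal.aleph0_lt_continuum)

theorem exists_detect (K : Type) [Field K] {V : Type} [AddCommGroup V] (v : (ℕ → Bool) → V)
    (hv : ∀ δ δ', δ ≠ δ' → ∀ c, ¬ringChar K ∣ c → ∀ u, c • (v δ - v δ') ≠ ringChar K • u) :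
    ∃ (U : Type) (_ : AddCommGroup U) (_ : Module K U) (j : V →+ U) (κ : Type)
      (s : κ → ℕ → Bool), Cardinal.continuum ≤ Cardinal.mk κ ∧
        LinearIndependent K fun i => j (v (s i)) := by
  rcases CharP.char_is_prime_or_zero K (ringChar K) with h | h
  · have := Fact.mk h
    let := ZMod.algebra K (ringChar K)
    obtain ⟨κ, s, h1, h2⟩ := exists_indep (ZMod (ringChar K)) K
      (fun δ => ModN.mkQ (ringChar K) (v δ)) fun δ δ' e => by
        by_contra hne
        obtain ⟨u, hu⟩ := (Submodule.Quotient.eq _).mp e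
        refine hv δ δ' hne 1 (fun h3 => h.one_lt.ne' (Nat.dvd_one.mp h3)) u ?_
        rw [one_smul, ← hu, LinearMap.lsmul_apply, natCast_zsmul]
    exact ⟨_, inferInstance, inferInstance,
      (TensorProduct.mk (ZMod (ringChar K)) K _ 1).toAddMonoidHom.comp (ModN.mkQ (ringChar K)),
      κ, s, h1, h2⟩
  · have : CharZero K := (CharP.ringChar_zero_iff_CharZero K).mp h
    obtain ⟨κ, s, h1, h2⟩ := exists_indep ℚ K
      (fun δ => TensorProduct.mk ℤ ℚ V 1 (v δ)) fun δ δ' e => by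
        by_contra hne
        obtain ⟨⟨c, hc⟩, hu⟩ := (IsLocalizedModule.eq_zero_iff (nonZeroDivisors ℤ)
          (TensorProduct.mk ℤ ℚ V 1) (m := v δ - v δ')).mp (by rw [map_sub]; exact sub_eq_zero.mpr e)
        have hc' := nonZeroDivisors.ne_zero hc
        refine hv δ δ' hne c.natAbs (by rw [h]; omega) 0 ?_
        rw [smul_zero]
        exact natAbs_nsmul_eq_zero.mpr hu
    exact ⟨_, inferInstance, inferInstance,
      (TensorProduct.mk ℚ K _ 1).toAddMonoidHom.comp (TensorProduct.mk ℤ ℚ V 1).toAddMonoidHom,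
      κ, s, h1, h2⟩

/-- The case of the free group on a type with two elements. -/
theorem free_caseR (R : Type) [CommRing R] [IsDomain R] :
    ∀ (α : Type), Nontrivial α →
      ∀ H : Subgroup ((n : ℕ) → FreeGroup α ⧸ derivedSeries (FreeGroup α) n),
        (H : Set ((n : ℕ) → FreeGroup α ⧸ derivedSeries (FreeGroup α) n)) =
          {x | ∀ n : ℕ, ∃ g : FreeGroup α,
              x (n + 1) = (g : FreeGroup α ⧸ derivedSeries (FreeGroup α) (n + 1)) ∧
              x n = (g : FreeGroup α ⧸ derivedSeries (FreeGroup α) n)} →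
        Cardinal.continuum ≤ Module.rank R (groupHomology (Rep.trivial R (↥H) R) 2) := by
  intro α hα H hH
  obtain ⟨a, b, hab⟩ := exists_pair_ne α
  have hch : ∀ (K : Type) [Field K], (ringChar K).Prime ∨ ringChar K = 0 := fun K _ =>
    CharP.char_is_prime_or_zero K _
  obtain ⟨n, θ, hn, hgood, hcong, hfar⟩ := exists_familyP (hch (FractionRing R)) hab
  have hmem : ∀ z : (k : ℕ) → FreeGroup α ⧸ derivedSeries (FreeGroup α) k, z ∈ H ↔
      ∀ k : ℕ, ∃ g : FreeGroup α,
        z (k + 1) = (g : FreeGroup α ⧸ derivedSeries (FreeGroup α) (k + 1)) ∧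
        z k = (g : FreeGroup α ⧸ derivedSeries (FreeGroup α) k) := fun z => by
    rw [← SetLike.mem_coe, hH]; rfl
  have heq : ∀ (k : ℕ) (g g' : FreeGroup α),
      (g : FreeGroup α ⧸ derivedSeries (FreeGroup α) k) = g' ↔
        g * g'⁻¹ ∈ derivedSeries (FreeGroup α) k := fun k g g' => by
    rw [← QuotientGroup.eq_one_iff, QuotientGroup.mk_mul, QuotientGroup.mk_inv, mul_inv_eq_one]
  have hdown : ∀ z ∈ H, ∀ j k, j ≤ k → ∀ g : FreeGroup α,
      z k = (g : FreeGroup α ⧸ derivedSeries (FreeGroup α) k) →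
      z j = (g : FreeGroup α ⧸ derivedSeries (FreeGroup α) j) := by
    intro z hz j k hjk
    induction k, hjk using Nat.le_induction with
    | base => exact fun g h => h
    | succ k hk ih =>
      intro g hg
      obtain ⟨g', h1, h2⟩ := (hmem z).1 hz k
      apply ih
      rw [h2, heq]
      exact derivedSeries_antitone _ (Nat.le_succ k) ((heq _ _ _).1 (h1.symm.trans hg))
  let pr : ∀ k, H →* FreeGroup α ⧸ derivedSeries (FreeGroup α) k := fun k =>
    (Pi.evalMonoidHom (fun k => FreeGroup α ⧸ derivedSeries (FreeGroup α) k) k).comp H.subtype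
  let χ : H →* Multiplicative ℤ :=
    (QuotientGroup.lift (derivedSeries (FreeGroup α) 1) (chi a)
      (fun x hx => chi_derived a hx)).comp (pr 1)
  let Ψ₀ : (ℕ → Bool) → Phi →* ((k : ℕ) → FreeGroup α ⧸ derivedSeries (FreeGroup α) k) :=
    fun ε => MonoidHom.pi fun k =>
      (QuotientGroup.mk' (derivedSeries (FreeGroup α) k)).comp ((psi a b).comp (θ ε k))
  have hΨ₀ : ∀ ε x, Ψ₀ ε x ∈ H := by
    intro ε x
    rw [hmem]
    intro k
    refine ⟨psi a b (θ ε (k + 1) x), rfl, ?_⟩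
    symm
    exact (heq _ _ _).2 (derivedSeries_antitone _ (hn k).le (hcong ε k (k + 1) (Nat.le_succ k) x))
  let Ψ : (ℕ → Bool) → Phi →* H := fun ε => (Ψ₀ ε).codRestrict H (hΨ₀ ε)
  have hχΨ : ∀ ε x, χ (Ψ ε x) = chi8 x := by
    intro ε x
    obtain ⟨m, hm⟩ := hgood ε 1
    change ((chi a).comp (psi a b)) (θ ε 1 x) = _
    rw [chi_psi hab]
    exact DFunLike.congr_fun hm.2.1 x
  have hrel : ∀ ε, Ψ ε (rel FreeGroup.of) = 1 := by
    intro ε
    apply Subtype.ext
    funext k
    obtain ⟨m, hm⟩ := hgood ε k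
    change QuotientGroup.mk' _ (psi a b (θ ε k (rel FreeGroup.of))) = 1
    rw [hm.1, psi_rel, map_one]
  have hker : ∀ ε, Ψ ε (FreeGroup.of 1) ∈ χ.ker := fun ε => by
    rw [MonoidHom.mem_ker, hχΨ]; simp [chi8]
  let cls : (ℕ → Bool) → Abelianization χ.ker := fun δ =>
    Abelianization.of ⟨_, hker fun k => δ (Nat.unpair k).1⟩
  have hinj : ∀ δ δ', δ ≠ δ' → ∀ c, ¬ringChar (FractionRing R) ∣ c → ∀ u,
      (cls δ * (cls δ')⁻¹) ^ c ≠ u ^ ringChar (FractionRing R) := by
    have key : ∀ δ δ' i, δ i = true → δ' i = false → ∀ c, ¬ringChar (FractionRing R) ∣ c → ∀ u,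
        (cls δ * (cls δ')⁻¹) ^ c ≠ u ^ ringChar (FractionRing R) := by
      intro δ δ' i h1 h2 c hc u h
      let ε : ℕ → Bool := fun k => δ (Nat.unpair k).1
      let ε' : ℕ → Bool := fun k => δ' (Nat.unpair k).1
      obtain ⟨g₀, rfl⟩ : ∃ g₀, Abelianization.of g₀ = u := QuotientGroup.mk_surjective u
      have h3 : (g₀ ^ ringChar (FractionRing R))⁻¹ *
          ((⟨_, hker ε⟩ : χ.ker) * (⟨_, hker ε'⟩ : χ.ker)⁻¹) ^ c ∈ commutator χ.ker := by
        rw [← Abelianization.ker_of, MonoidHom.mem_ker, map_mul, map_inv, inv_mul_eq_one, map_pow,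
          map_pow, map_mul, map_inv]
        exact h.symm
      obtain ⟨m₀, hm₀⟩ := CL.of_mem_commutator (K := ⊤) h3
      have hm₁ := CP.pow (r := ringChar (FractionRing R)) g₀ (Subgroup.mem_top _) hm₀.toCP
      rw [mul_inv_cancel_left] at hm₁
      let m := max (m₀ + 1) c
      have hm := hm₁.mono_len (le_max_left (m₀ + 1) c)
      let k := Nat.pair i m
      let π := QuotientGroup.mk' (derivedSeries (FreeGroup α) (n (k + 1)))
      have h4 := (hm.map (K' := (chi a).ker.map π) ((pr (n (k + 1))).comp χ.ker.subtype)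
        (fun z _ => by
          obtain ⟨g, hg⟩ := QuotientGroup.mk_surjective (pr (n (k + 1)) z)
          refine ⟨g, ?_, hg⟩
          have h5 := hdown z.1.1 z.1.2 1 (n (k + 1)) (by have := hn (k + 1); omega) g hg.symm
          have h6 : χ z = 1 := z.2
          change QuotientGroup.lift (derivedSeries (FreeGroup α) 1) (chi a)
            (fun x hx => chi_derived a hx) (z.1.1 1) = 1 at h6
          rw [h5] at h6
          exact h6)).mono_len (Nat.right_le_pair i m)
      obtain ⟨x, hx, hx'⟩ := CP.lift (K := (chi a).ker) π (fun y hy => hy) h4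
      refine hfar ε ε' k (by simp [ε, k, h1]) (by simp [ε', k, h2]) c
        ((le_max_right _ c).trans (Nat.right_le_pair i m)) hc x hx ?_
      rw [← heq]
      change π _ = π x
      rw [hx', map_pow, map_pow, map_mul, map_inv, map_mul, map_inv]
      have h7 : ∀ e : ℕ → Bool, π (psi a b (θ e (k + 1) (FreeGroup.of 1))) =
          π (psi a b (θ e (n (k + 1)) (FreeGroup.of 1))) := fun e =>
        ((heq _ _ _).2 (hcong e (k + 1) (n (k + 1)) (hn _).le _)).symm
      rw [h7, h7]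
      rfl
    intro δ δ' hne c hc u h
    obtain ⟨i, hi⟩ := Function.ne_iff.mp hne
    cases h1 : δ i <;> cases h2 : δ' i
    · exact hi (h1.trans h2.symm)
    · refine key δ' δ i h2 h1 c hc u⁻¹ ?_
      rw [inv_pow, ← h, ← inv_pow, mul_inv_rev, inv_inv]
    · exact key δ δ' i h1 h2 c hc u h
    · exact hi (h1.trans h2.symm)
  obtain ⟨U, _, _, j, κ, s, hκ, hli⟩ := exists_detect (FractionRing R)
    (fun δ => Additive.ofMul (cls δ)) fun δ δ' hne c hc u h =>
      hinj δ δ' hne c hc u.toMul (by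
        rw [← div_eq_mul_inv]
        exact congrArg Additive.toMul h)
  let := Module.compHom U (algebraMap R (FractionRing R))
  refine hκ.trans (rank_ge χ (Ψ (fun _ => true) (FreeGroup.of 0)) (by rw [hχΨ]; simp [chi8]) j
    (fun i => cls (s i)) (fun i => ?_) (linearIndependent_iff'.mpr fun t g hg i hi =>
      IsFractionRing.injective R (FractionRing R) ?_))
  · let ε : ℕ → Bool := fun k => s i (Nat.unpair k).1
    have hr := hrel ε
    rw [Pool.Agent.Lib.MP_6bd4d3_al.map_rel] at hr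
    refine ⟨Ψ ε (FreeGroup.of 0), ⟨_, hker ε⟩, Ψ ε (FreeGroup.of 2), Ψ ε (FreeGroup.of 3),
      Ψ ε (FreeGroup.of 4), Ψ ε (FreeGroup.of 5), Ψ ε (FreeGroup.of 6), Ψ ε (FreeGroup.of 7),
      ?_, ?_, ?_, ?_, ?_, ?_, ?_, hr, rfl⟩ <;> (rw [hχΨ]; simp [chi8])
  · rw [map_zero]
    exact linearIndependent_iff'.mp hli t (fun i => algebraMap R (FractionRing R) (g i)) hg i hi

end Pool.Agent.Lib.MP_6bd4d3_al
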