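import Pool.Agent.Lib.MP_6bd4d3_al.Far

/-!
Moves on genus four surface relations.
-/

open scoped commutatorElement

namespace Pool.Agent.Lib.MP_6bd4d3_al

/-- The genus four surface word. -/
def rel {G : Type} [Group G] (v : Fin 8 → G) : G :=
  ⁅v 0, v 1⁆ * ⁅v 2, v 3⁆ * ⁅v 4, v 5⁆ * ⁅v 6, v 7⁆

lemma map_rel {G Q : Type} [Group G] [Group Q] (f : G →* Q) (v : Fin 8 → G) :
    f (rel v) = rel fun i => f (v i) := by
  simp only [rel, map_mul, map_commutatorElement]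

/-- The free group on the eight surface generators. -/
abbrev Phi : Type := FreeGroup (Fin 8)

/-- The exponent sum of the first generator. -/
def chi8 : Phi →* Multiplicative ℤ :=
  FreeGroup.lift fun i => if i = 0 then Multiplicative.ofAdd 1 else 1

/-- Endomorphisms fixing the surface word and the exponent sum, and moving the second generator
by at most `m` commutators. -/
def Good (θ : Phi →* Phi) (m : ℕ) : Prop :=
  θ (rel FreeGroup.of) = rel FreeGroup.of ∧ chi8.comp θ = chi8 ∧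
    CL chi8.ker m (θ (FreeGroup.of 1) * (FreeGroup.of 1)⁻¹)

lemma Good.id (m : ℕ) : Good (MonoidHom.id _) m :=
  ⟨rfl, rfl, by simpa using CL.one m⟩

lemma Good.ker {θ : Phi →* Phi} {m : ℕ} (h : Good θ m) : ∀ x ∈ chi8.ker, θ x ∈ chi8.ker := by
  intro x hx
  change (chi8.comp θ) x = 1
  rw [h.2.1]
  exact hx

lemma Good.comp {θ τ : Phi →* Phi} {m m' : ℕ} (h : Good θ m) (h' : Good τ m') :
    Good (τ.comp θ) (m + m') := by
  refine ⟨by rw [MonoidHom.comp_apply, h.1, h'.1], by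
    rw [← MonoidHom.comp_assoc, h'.2.1, h.2.1], ?_⟩
  have := (h.2.2.map τ h'.ker).mul h'.2.2
  simpa [mul_assoc] using this

lemma Good.mono {θ : Phi →* Phi} {m m' : ℕ} (h : Good θ m) (hm : m ≤ m') : Good θ m' :=
  ⟨h.1, h.2.1, h.2.2.mono_len hm⟩

variable {G : Type} [Group G]

/-- `v'` is obtained from `v` by a good endomorphism. -/
def Reach (v v' : Fin 8 → G) : Prop :=
  ∃ θ m, Good θ m ∧ (FreeGroup.lift v).comp θ = FreeGroup.lift v'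

lemma Reach.refl (v : Fin 8 → G) : Reach v v := ⟨_, 0, Good.id 0, rfl⟩

lemma Reach.trans {v v' v'' : Fin 8 → G} (h : Reach v v') (h' : Reach v' v'') : Reach v v'' := by
  obtain ⟨θ, m, hθ, e⟩ := h
  obtain ⟨τ, m', hτ, e'⟩ := h'
  exact ⟨θ.comp τ, _, hτ.comp hθ, by rw [← MonoidHom.comp_assoc, e, e']⟩

lemma reach_of (f : Fin 8 → Phi) (hr : rel f = rel FreeGroup.of)
    (hχ : ∀ i, chi8 (f i) = chi8 (FreeGroup.of i))
    (hb : CL chi8.ker 1 (f 1 * (FreeGroup.of 1)⁻¹)) {v v' : Fin 8 → G}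
    (hv : ∀ i, FreeGroup.lift v (f i) = v' i) : Reach v v' := by
  refine ⟨FreeGroup.lift f, 1, ⟨?_, ?_, ?_⟩, ?_⟩
  · rw [map_rel]; simpa using hr
  · ext1 i; simpa using hχ i
  · simpa using hb
  · ext1 i; simpa using hv i

/-- The generators of `Phi`. -/
abbrev gen (i : Fin 8) : Phi := FreeGroup.of i

lemma move_push (x0 x1 x2 x3 x4 x5 x6 x7 : G) :
    Reach ![x0, x1, x2, x3, x4, x5, x6, x7]
      ![x0, (x1 * x0⁻¹ * x1⁻¹) * ⁅x2, x3⁆ * (x1 * x0⁻¹ * x1⁻¹)⁻¹ * x1,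
        (x1 * x0⁻¹ * x1⁻¹) * x2 * (x1 * x0⁻¹ * x1⁻¹)⁻¹,
        (x1 * x0⁻¹ * x1⁻¹) * x3 * (x1 * x0⁻¹ * x1⁻¹)⁻¹, x4, x5, x6, x7] := by
  refine reach_of ![gen 0, (gen 1 * (gen 0)⁻¹ * (gen 1)⁻¹) * ⁅gen 2, gen 3⁆ *
      (gen 1 * (gen 0)⁻¹ * (gen 1)⁻¹)⁻¹ * gen 1,
      (gen 1 * (gen 0)⁻¹ * (gen 1)⁻¹) * gen 2 * (gen 1 * (gen 0)⁻¹ * (gen 1)⁻¹)⁻¹,
      (gen 1 * (gen 0)⁻¹ * (gen 1)⁻¹) * gen 3 * (gen 1 * (gen 0)⁻¹ * (gen 1)⁻¹)⁻¹,
      gen 4, gen 5, gen 6, gen 7] ?_ ?_ ?_ ?_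
  · simp [gen, rel, commutatorElement_def]; group
  · intro i; fin_cases i <;> simp [gen, chi8, commutatorElement_def]
  · have := CL.single (K := chi8.ker)
      (p := (gen 1 * (gen 0)⁻¹ * (gen 1)⁻¹) * gen 2 * (gen 1 * (gen 0)⁻¹ * (gen 1)⁻¹)⁻¹)
      (q := (gen 1 * (gen 0)⁻¹ * (gen 1)⁻¹) * gen 3 * (gen 1 * (gen 0)⁻¹ * (gen 1)⁻¹)⁻¹)
      (by simp [gen, chi8, MonoidHom.mem_ker]) (by simp [gen, chi8, MonoidHom.mem_ker])
    convert this using 1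
    simp [gen, commutatorElement_def]; group
  · intro i; fin_cases i <;> simp [gen, commutatorElement_def]

lemma move_pull (x0 x2 x4 x5 x6 x7 : G) :
    Reach ![x0, 1, x2, 1, x4, x5, x6, x7] ![x0, 1, x0 * x2 * x0⁻¹, 1, x4, x5, x6, x7] := by
  refine reach_of ![gen 0, ⁅gen 2, gen 3⁆⁻¹ * gen 1,
      (⁅gen 2, gen 3⁆⁻¹ * gen 1 * gen 0 * (gen 1)⁻¹) * gen 2 *
        (⁅gen 2, gen 3⁆⁻¹ * gen 1 * gen 0 * (gen 1)⁻¹)⁻¹,
      (⁅gen 2, gen 3⁆⁻¹ * gen 1 * gen 0 * (gen 1)⁻¹) * gen 3 *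
        (⁅gen 2, gen 3⁆⁻¹ * gen 1 * gen 0 * (gen 1)⁻¹)⁻¹,
      gen 4, gen 5, gen 6, gen 7] ?_ ?_ ?_ ?_
  · simp [gen, rel, commutatorElement_def]; group
  · intro i; fin_cases i <;> simp [gen, chi8, commutatorElement_def]
  · have := (CL.single (K := chi8.ker) (p := gen 2) (q := gen 3)
      (by simp [gen, chi8, MonoidHom.mem_ker]) (by simp [gen, chi8, MonoidHom.mem_ker])).inv
    simpa [gen] using this
  · intro i; fin_cases i <;> simp [gen, commutatorElement_def]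

lemma move_swap23 (x0 x1 x2 x3 x4 x5 x6 x7 : G) :
    Reach ![x0, x1, x2, x3, x4, x5, x6, x7]
      ![x0, x1, ⁅x2, x3⁆ * x4 * ⁅x2, x3⁆⁻¹, ⁅x2, x3⁆ * x5 * ⁅x2, x3⁆⁻¹, x2, x3, x6, x7] := by
  refine reach_of ![gen 0, gen 1, ⁅gen 2, gen 3⁆ * gen 4 * ⁅gen 2, gen 3⁆⁻¹,
      ⁅gen 2, gen 3⁆ * gen 5 * ⁅gen 2, gen 3⁆⁻¹, gen 2, gen 3, gen 6, gen 7] ?_ ?_ ?_ ?_
  · simp [gen, rel, commutatorElement_def]; group
  · intro i; fin_cases i <;> simp [gen, chi8, commutatorElement_def]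
  · simpa [gen] using CL.one 1
  · intro i; fin_cases i <;> simp [gen, commutatorElement_def]

lemma move_swap34 (x0 x1 x2 x3 x4 : G) :
    Reach ![x0, x1, x2, x3, x4, 1, 1, 1] ![x0, x1, x2, x3, 1, 1, x4, 1] := by
  refine reach_of ![gen 0, gen 1, gen 2, gen 3, ⁅gen 4, gen 5⁆ * gen 6 * ⁅gen 4, gen 5⁆⁻¹,
      ⁅gen 4, gen 5⁆ * gen 7 * ⁅gen 4, gen 5⁆⁻¹, gen 4, gen 5] ?_ ?_ ?_ ?_
  · simp [gen, rel, commutatorElement_def]; group
  · intro i; fin_cases i <;> simp [gen, chi8, commutatorElement_def]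
  · simpa [gen] using CL.one 1
  · intro i; fin_cases i <;> simp [gen, commutatorElement_def]

lemma move_slide23 (x0 x1 x2 x4 x6 x7 : G) :
    Reach ![x0, x1, x2, 1, x4, 1, x6, x7] ![x0, x1, x2, 1, x2⁻¹ * x4, 1, x6, x7] := by
  refine reach_of ![gen 0, gen 1, gen 2,
      (gen 3 * (gen 2)⁻¹ * (gen 3)⁻¹) * (gen 4 * gen 5 * (gen 4)⁻¹) * gen 3 * gen 2,
      (gen 3 * (gen 2)⁻¹ * (gen 3)⁻¹) * (gen 4 * gen 5 * (gen 4)⁻¹) * gen 4,
      gen 5, gen 6, gen 7] ?_ ?_ ?_ ?_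
  · simp [gen, rel, commutatorElement_def]; group
  · intro i; fin_cases i <;> simp [gen, chi8]
  · simpa [gen] using CL.one 1
  · intro i; fin_cases i <;> simp [gen]

lemma move_slide23' (x0 x1 x2 x4 x6 x7 : G) :
    Reach ![x0, x1, x2, 1, x4, 1, x6, x7] ![x0, x1, x2, 1, x2 * x4, 1, x6, x7] := by
  refine reach_of ![gen 0, gen 1, gen 2, (gen 4 * gen 5 * (gen 4)⁻¹)⁻¹ * gen 3,
      ((gen 3 * (gen 2)⁻¹ * (gen 3)⁻¹) * (gen 4 * gen 5 * (gen 4)⁻¹))⁻¹ * gen 4,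
      gen 5, gen 6, gen 7] ?_ ?_ ?_ ?_
  · simp [gen, rel, commutatorElement_def]; group
  · intro i; fin_cases i <;> simp [gen, chi8]
  · simpa [gen] using CL.one 1
  · intro i; fin_cases i <;> simp [gen]

lemma move_flip4 (x0 x1 x2 x3 x4 x5 x6 : G) :
    Reach ![x0, x1, x2, x3, x4, x5, x6, 1] ![x0, x1, x2, x3, x4, x5, 1, x6⁻¹] := by
  refine reach_of ![gen 0, gen 1, gen 2, gen 3, gen 4, gen 5, gen 6 * gen 7 * (gen 6)⁻¹, (gen 6)⁻¹]
    ?_ ?_ ?_ ?_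
  · simp [gen, rel, commutatorElement_def]; group
  · intro i; fin_cases i <;> simp [gen, chi8]
  · simpa [gen] using CL.one 1
  · intro i; fin_cases i <;> simp [gen]

lemma move_slide34 (x0 x1 x2 x3 P Q : G) :
    Reach ![x0, x1, x2, x3, P, 1, 1, Q] ![x0, x1, x2, x3, P, P⁻¹ * Q * P, P⁻¹ * Q, Q] := by
  refine reach_of ![gen 0, gen 1, gen 2, gen 3, gen 4,
      (gen 5 * (gen 4)⁻¹ * (gen 5)⁻¹) * (gen 6 * gen 7 * (gen 6)⁻¹) * gen 5 * gen 4,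
      (gen 5 * (gen 4)⁻¹ * (gen 5)⁻¹) * (gen 6 * gen 7 * (gen 6)⁻¹) * gen 6,
      gen 7] ?_ ?_ ?_ ?_
  · simp [gen, rel, commutatorElement_def]; group
  · intro i; fin_cases i <;> simp [gen, chi8]
  · simpa [gen] using CL.one 1
  · intro i; fin_cases i <;> simp [gen]

lemma move_conj (x0 x2 x4 x5 x6 x7 : G) (j : ℤ) :
    Reach ![x0, 1, x2, 1, x4, x5, x6, x7] ![x0, 1, x0 ^ j * x2 * x0 ^ (-j), 1, x4, x5, x6, x7] := by
  induction j using Int.induction_on with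
  | zero => simpa using Reach.refl _
  | succ i ih =>
    refine ih.trans ?_
    convert move_pull x0 (x0 ^ (i : ℤ) * x2 * x0 ^ (-(i : ℤ))) x4 x5 x6 x7 using 3
    group
  | pred i ih =>
    refine ih.trans ?_
    convert move_push x0 1 (x0 ^ (-(i : ℤ)) * x2 * x0 ^ (-(-(i : ℤ)))) 1 x4 x5 x6 x7 using 3
    · simp
    · simp only [one_mul, inv_one, mul_one, mul_inv_cancel]
      congr 1
      group

/-- The elements that can be slid into the third handle. -/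
def slid (α β : G) : Subgroup G where
  carrier := {s | ∀ x4 x6 x7, Reach ![α, 1, β, 1, x4, 1, x6, x7] ![α, 1, β, 1, s * x4, 1, x6, x7] ∧
    Reach ![α, 1, β, 1, x4, 1, x6, x7] ![α, 1, β, 1, s⁻¹ * x4, 1, x6, x7]}
  one_mem' := fun x4 x6 x7 => by simpa using Reach.refl _
  mul_mem' := fun {s t} hs ht x4 x6 x7 =>
    ⟨by simpa [mul_assoc] using (ht x4 x6 x7).1.trans (hs _ x6 x7).1,
     by simpa [mul_assoc] using (hs x4 x6 x7).2.trans (ht _ x6 x7).2⟩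
  inv_mem' := fun {s} hs x4 x6 x7 => ⟨(hs x4 x6 x7).2, by simpa using (hs x4 x6 x7).1⟩

lemma conj_mem_slid (α β : G) (j : ℤ) : α ^ j * β * α ^ (-j) ∈ slid α β := by
  intro x4 x6 x7
  have back : ∀ y : G, Reach ![α, 1, α ^ j * β * α ^ (-j), 1, y, 1, x6, x7]
      ![α, 1, β, 1, y, 1, x6, x7] := by
    intro y
    convert move_conj α (α ^ j * β * α ^ (-j)) y 1 x6 x7 (-j) using 4
    group
  exact ⟨((move_conj α β x4 1 x6 x7 j).trans (move_slide23' _ _ _ _ _ _)).trans (back _),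
    ((move_conj α β x4 1 x6 x7 j).trans (move_slide23 _ _ _ _ _ _)).trans (back _)⟩

/-- The product of the conjugates `α^{-i} c α^i`, `1 ≤ i ≤ N`. -/
def conjProd (α c : G) (N : ℕ) : G :=
  ((List.range N).map fun i : ℕ => α ^ (-((i : ℤ) + 1)) * c * α ^ ((i : ℤ) + 1)).prod

lemma conjProd_succ (α c : G) (N : ℕ) :
    conjProd α c (N + 1) = conjProd α c N * (α ^ (-((N : ℤ) + 1)) * c * α ^ ((N : ℤ) + 1)) := by
  simp [conjProd, List.range_succ]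

lemma move_push_iter (D : Subgroup G) [hD : D.Normal] (x0 x2 x3 x4 x5 x6 x7 : G) (h2 : x2 ∈ D)
    (h3 : x3 ∈ D) (N : ℕ) : ∃ y2 ∈ D, ∃ y3 ∈ D,
      ⁅y2, y3⁆ = conjProd x0 ⁅x2, x3⁆ N * (x0 ^ (-(N : ℤ)) * ⁅x2, x3⁆ * x0 ^ (N : ℤ)) *
        (conjProd x0 ⁅x2, x3⁆ N)⁻¹ ∧
      Reach ![x0, 1, x2, x3, x4, x5, x6, x7]
        ![x0, conjProd x0 ⁅x2, x3⁆ N, y2, y3, x4, x5, x6, x7] := by
  induction N with
  | zero => exact ⟨x2, h2, x3, h3, by simp [conjProd], by simpa [conjProd] using Reach.refl _⟩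
  | succ N ih =>
    obtain ⟨y2, hy2, y3, hy3, e, hr⟩ := ih
    refine ⟨_, hD.conj_mem y2 hy2
      (conjProd x0 ⁅x2, x3⁆ N * x0⁻¹ * (conjProd x0 ⁅x2, x3⁆ N)⁻¹), _, hD.conj_mem y3 hy3
      (conjProd x0 ⁅x2, x3⁆ N * x0⁻¹ * (conjProd x0 ⁅x2, x3⁆ N)⁻¹), ?_, hr.trans ?_⟩
    · rw [← conjugate_commutatorElement, e, conjProd_succ]
      push_cast
      group
    · convert move_push x0 (conjProd x0 ⁅x2, x3⁆ N) y2 y3 x4 x5 x6 x7 using 3
      rw [e, conjProd_succ]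
      group

lemma conjProd_mem (D : Subgroup G) [hD : D.Normal] (α c : G) (hc : c ∈ D) (N : ℕ) :
    conjProd α c N ∈ D := by
  induction N with
  | zero => simp [conjProd]
  | succ N ih =>
    rw [conjProd_succ]
    refine D.mul_mem ih ?_
    have := hD.conj_mem c hc (α ^ (-((N : ℤ) + 1)))
    rwa [← zpow_neg, neg_neg] at this

/-- The base tuple. -/
def base (α β : G) : Fin 8 → G := ![α, 1, β, 1, 1, 1, 1, 1]

theorem reach_main (D : Subgroup G) [hD : D.Normal] (α β p q : G) (hp : p ∈ D) (hq : q ∈ D)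
    (hp' : p ∈ slid α β) (hq' : q ∈ slid α β) (N : ℕ) :
    ∃ v : Fin 8 → G, Reach (base α β) v ∧ v 1 = conjProd α ⁅p, q⁆ N ∧
      ∀ i, v i * (base α β i)⁻¹ ∈ D := by
  have s1 := (hp' 1 1 1).2
  rw [mul_one] at s1
  have s2 := move_swap34 α 1 β 1 p⁻¹
  have s3 := (hq' 1 p⁻¹ 1).2
  rw [mul_one] at s3
  have s4 := move_flip4 α 1 β 1 q⁻¹ 1 p⁻¹
  rw [inv_inv] at s4
  have s5 := move_slide34 α 1 β 1 q⁻¹ p
  have s6 := move_swap23 α 1 β 1 q⁻¹ (q⁻¹⁻¹ * p * q⁻¹) (q⁻¹⁻¹ * p) p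
  simp only [commutatorElement_one_right, one_mul, inv_one, mul_one] at s6
  have hc : ⁅q⁻¹, q⁻¹⁻¹ * p * q⁻¹⁆ = ⁅p, q⁆ := by
    simp only [commutatorElement_def]; group
  obtain ⟨y2, hy2, y3, hy3, -, s7⟩ := move_push_iter D α q⁻¹ (q⁻¹⁻¹ * p * q⁻¹) β 1 (q⁻¹⁻¹ * p) p
    (D.inv_mem hq) (by simpa using hD.conj_mem p hp q) N
  rw [hc] at s7
  have s8 := move_swap23 α (conjProd α ⁅p, q⁆ N) y2 y3 β 1 (q⁻¹⁻¹ * p) p
  refine ⟨_, (((((((s1.trans s2).trans s3).trans s4).trans s5).trans s6).trans s7).trans s8), rfl,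
    fun i => ?_⟩
  have hc' : ⁅y2, y3⁆ ∈ D := by
    rw [commutatorElement_def]
    exact D.mul_mem (D.mul_mem (D.mul_mem hy2 hy3) (D.inv_mem hy2)) (D.inv_mem hy3)
  have hc'' : ⁅p, q⁆ ∈ D := by
    rw [commutatorElement_def]
    exact D.mul_mem (D.mul_mem (D.mul_mem hp hq) (D.inv_mem hp)) (D.inv_mem hq)
  fin_cases i
  · simp [base]
  · simpa [base] using conjProd_mem D α _ hc'' N
  · have := D.mul_mem hc' (hD.conj_mem _ (D.inv_mem hc') β)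
    simpa [base, mul_assoc] using this
  · simpa [base] using D.mul_mem hc' (D.inv_mem hc')
  · simpa [base] using hy2
  · simpa [base] using hy3
  · simpa [base] using D.mul_mem hq hp
  · simpa [base] using hp

end Pool.Agent.Lib.MP_6bd4d3_al
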